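import Pool.Agent.Work.MP_5d54aa_co.Link

set_option autoImplicit false

namespace Pool.Agent.MP_5d54aa_co

def e1 (α β : Type) : Option (α ⊕ β) ≃ Option α ⊕ β where
  toFun
    | none => Sum.inl none
    | some (Sum.inl a) => Sum.inl (some a)
    | some (Sum.inr b) => Sum.inr b
  invFun
    | Sum.inl none => none
    | Sum.inl (some a) => some (Sum.inl a)
    | Sum.inr b => some (Sum.inr b)
  left_inv := by rintro (_ | (a | b)) <;> rfl
  right_inv := by rintro ((_ | a) | b) <;> rfl

def e2 (α β : Type) : Option (α ⊕ β) ≃ α ⊕ Option β where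
  toFun
    | none => Sum.inr none
    | some (Sum.inl a) => Sum.inl a
    | some (Sum.inr b) => Sum.inr (some b)
  invFun
    | Sum.inr none => none
    | Sum.inl a => some (Sum.inl a)
    | Sum.inr (some b) => some (Sum.inr b)
  left_inv := by rintro (_ | (a | b)) <;> rfl
  right_inv := by rintro (a | (_ | b)) <;> rfl

def e0 : Option Unit ≃ Unit ⊕ Unit where
  toFun
    | none => Sum.inr ()
    | some _ => Sum.inl ()
  invFun
    | Sum.inr _ => none
    | Sum.inl _ => some ()
  left_inv := by rintro (_ | a) <;> rfl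
  right_inv := by rintro (a | b) <;> rfl

theorem RT.addLeaf (R : RT) : ∀ x : R.V, ∃ (R' : RT) (φ : Option R.V ≃ R'.V),
    φ (some R.root) = R'.root ∧
    (∀ z z', R'.dist (φ (some z)) (φ (some z')) = R.dist z z') ∧
    (∀ z, R'.dist (φ (some z)) (φ none) = R.dist z x + 1) := by
  induction R with
  | single =>
    intro x
    refine ⟨RT.graft RT.single RT.single, e0, rfl, ?_, ?_⟩
    · intro z z'; rfl
    · intro z; rfl
  | graft T S ihT ihS =>
    rintro (x | x)
    · obtain ⟨T', φ, h1, h2, h3⟩ := ihT x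
      refine ⟨RT.graft T' S, (e1 T.V S.V).trans (Equiv.sumCongr φ (Equiv.refl _)), ?_, ?_, ?_⟩
      · change (Sum.inl (φ (some T.root)) : T'.V ⊕ S.V) = Sum.inl T'.root
        rw [h1]
      · rintro (z | z) (z' | z')
        · exact h2 z z'
        · change T'.dist T'.root (φ (some z)) + 1 + S.dist S.root z'
            = T.dist T.root z + 1 + S.dist S.root z'
          rw [← h1, h2]
        · change T'.dist T'.root (φ (some z')) + 1 + S.dist S.root z
            = T.dist T.root z' + 1 + S.dist S.root z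
          rw [← h1, h2]
        · rfl
      · rintro (z | z)
        · exact h3 z
        · change T'.dist T'.root (φ none) + 1 + S.dist S.root z
            = T.dist T.root x + 1 + S.dist S.root z + 1
          rw [← h1, h3]; omega
    · obtain ⟨S', φ, h1, h2, h3⟩ := ihS x
      refine ⟨RT.graft T S', (e2 T.V S.V).trans (Equiv.sumCongr (Equiv.refl _) φ), ?_, ?_, ?_⟩
      · rfl
      · rintro (z | z) (z' | z')
        · rfl
        · change T.dist T.root z + 1 + S'.dist S'.root (φ (some z'))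
            = T.dist T.root z + 1 + S.dist S.root z'
          rw [← h1, h2]
        · change T.dist T.root z' + 1 + S'.dist S'.root (φ (some z))
            = T.dist T.root z' + 1 + S.dist S.root z
          rw [← h1, h2]
        · exact h2 z z'
      · rintro (z | z)
        · change T.dist T.root z + 1 + S'.dist S'.root (φ none)
            = T.dist T.root z + 1 + S.dist S.root x + 1
          rw [← h1, h3]; omega
        · exact h3 z

variable {V : Type}

theorem tree_path_length {G : SimpleGraph V} (hG : G.IsTree) {x y : V} (p : G.Walk x y)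
    (hp : p.IsPath) : p.length = G.dist x y := by
  obtain ⟨q, hq, hq'⟩ := (hG.connected x y).exists_path_of_dist
  have h1 := (hG.isAcyclic.subsingleton_path x y).elim ⟨p, hp⟩ ⟨q, hq⟩
  rw [Subtype.mk.injEq] at h1
  rw [h1, hq']

theorem concat_len {G : SimpleGraph V} (hG : G.IsTree) {x w u : V} (p : G.Walk x w)
    (hp : p.IsPath) (hun : u ∉ p.support) (h : G.Adj w u) : G.dist x u = p.length + 1 := by
  have := tree_path_length hG _ (hp.concat hun h)
  rw [SimpleGraph.Walk.length_concat] at this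
  exact this.symm

/-- inclusion of an induced subgraph -/
def incl (G : SimpleGraph V) (s : Set V) : G.induce s →g G where
  toFun := Subtype.val
  map_rel' := fun h => h

theorem leaf_facts {G : SimpleGraph V} (hG : G.IsTree) {u w : V} (huw : G.Adj u w)
    (hconn : (G.induce {u}ᶜ).Connected) :
    (G.induce {u}ᶜ).IsTree ∧
    (∀ x y : ({u}ᶜ : Set V), (G.induce {u}ᶜ).dist x y = G.dist x y) ∧
    (∀ x : ({u}ᶜ : Set V), G.dist x u = G.dist x w + 1) := by
  have hT : (G.induce {u}ᶜ).IsTree := ⟨hconn, hG.isAcyclic.induce _⟩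
  have hdist : ∀ x y : ({u}ᶜ : Set V), (G.induce {u}ᶜ).dist x y = G.dist x y := by
    intro x y
    obtain ⟨p, hp, hp'⟩ := (hconn x y).exists_path_of_dist
    have hq := SimpleGraph.Walk.IsPath.map (f := incl G {u}ᶜ) Subtype.val_injective hp
    have := tree_path_length hG _ hq
    rw [SimpleGraph.Walk.length_map, hp'] at this
    exact this
  refine ⟨hT, hdist, ?_⟩
  intro x
  have hw : w ∈ ({u}ᶜ : Set V) := by
    intro h
    have : w = u := h
    rw [this] at huw
    exact G.irrefl huw
  obtain ⟨p, hp, hp'⟩ := (hconn x ⟨w, hw⟩).exists_path_of_dist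
  have hq := SimpleGraph.Walk.IsPath.map (f := incl G {u}ᶜ) Subtype.val_injective hp
  have hun : u ∉ (p.map (incl G {u}ᶜ)).support := by
    rw [SimpleGraph.Walk.support_map, List.mem_map]
    rintro ⟨z, _, hz⟩
    exact z.2 hz
  have hc := concat_len hG _ hq hun (huw.symm : G.Adj w u)
  rw [SimpleGraph.Walk.length_map, hp', hdist] at hc
  exact hc

/-- `Option {x // x ≠ u} ≃ V` -/
noncomputable def optEquiv (u : V) : Option ({u}ᶜ : Set V) ≃ V :=
  Equiv.ofBijective (fun o => match o with
    | none => u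
    | some x => (x : V)) (by
    constructor
    · rintro (_ | a) (_ | b) h
      · rfl
      · exact absurd h.symm b.2
      · exact absurd h a.2
      · exact congrArg some (Subtype.ext h)
    · intro y
      by_cases h : y = u
      · exact ⟨none, h.symm⟩
      · exact ⟨some ⟨y, h⟩, rfl⟩)

theorem optEquiv_none (u : V) : optEquiv u none = u := rfl
theorem optEquiv_some (u : V) (x : ({u}ᶜ : Set V)) : optEquiv u (some x) = x := rfl

theorem glue (D : V → V → ℕ) (hs : ∀ x y, D x y = D y x) (h0 : ∀ x, D x x = 0) (u v w : V)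
    (hv : v ∈ ({u}ᶜ : Set V)) (hw : w ∈ ({u}ᶜ : Set V))
    (hleaf : ∀ x : ({u}ᶜ : Set V), D x u = D x w + 1)
    (R' R'' : RT) (ψ : ({u}ᶜ : Set V) ≃ R'.V) (hψ : ψ ⟨v, hv⟩ = R'.root)
    (hD : ∀ x y : ({u}ᶜ : Set V), D x y = R'.dist (ψ x) (ψ y))
    (φ : Option R'.V ≃ R''.V) (h1 : φ (some R'.root) = R''.root)
    (h2 : ∀ z z', R''.dist (φ (some z)) (φ (some z')) = R'.dist z z')
    (h3 : ∀ z, R''.dist (φ (some z)) (φ none) = R'.dist z (ψ ⟨w, hw⟩) + 1) :
    Rep D v R'' := by
  refine ⟨(optEquiv u).symm.trans ((Equiv.optionCongr ψ).trans φ), ?_, ?_⟩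
  · have : v = optEquiv u (some ⟨v, hv⟩) := rfl
    conv_lhs => rw [this]
    simp only [Equiv.trans_apply, Equiv.symm_apply_apply, Equiv.optionCongr_apply, Option.map_some,
      hψ, h1]
  · intro x y
    obtain ⟨a, rfl⟩ := (optEquiv u).surjective x
    obtain ⟨b, rfl⟩ := (optEquiv u).surjective y
    simp only [Equiv.trans_apply, Equiv.symm_apply_apply, Equiv.optionCongr_apply]
    rcases a with _ | a <;> rcases b with _ | b
    · rw [optEquiv_none, h0, RT.dist_self]
    · rw [optEquiv_none, optEquiv_some, hs, hleaf, RT.dist_symm]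
      simp only [Option.map_some, Option.map_none]
      rw [h3, ← hD]
    · rw [optEquiv_none, optEquiv_some, hleaf]
      simp only [Option.map_some, Option.map_none]
      rw [h3, ← hD]
    · rw [optEquiv_some, optEquiv_some, hD]
      simp only [Option.map_some]
      rw [h2]

theorem exists_leaf [Fintype V] [DecidableEq V] (G : SimpleGraph V) (hG : G.IsTree)
    (hc : 2 ≤ Fintype.card V) (v : V) :
    ∃ u w : V, v ∈ ({u}ᶜ : Set V) ∧ w ∈ ({u}ᶜ : Set V) ∧ (G.induce {u}ᶜ).IsTree ∧
      (∀ x y : ({u}ᶜ : Set V), (G.induce {u}ᶜ).dist x y = G.dist x y) ∧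
      (∀ x : ({u}ᶜ : Set V), G.dist x u = G.dist x w + 1) := by
  classical
  have hnt : Nontrivial V := Fintype.one_lt_card_iff_nontrivial.mp (by omega)
  obtain ⟨u1, u2, hne, hd1, hd2⟩ := hG.exists_ne_and_degree_eq_one
  obtain ⟨u, huv, hd⟩ : ∃ u, u ≠ v ∧ G.degree u = 1 := by
    by_cases h : u1 = v
    · exact ⟨u2, fun h' => hne (h.trans h'.symm), hd2⟩
    · exact ⟨u1, h, hd1⟩
  obtain ⟨w, hw, _⟩ := SimpleGraph.degree_eq_one_iff_existsUnique_adj.mp hd
  have hconn := hG.connected.induce_compl_singleton_of_degree_eq_one hd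
  obtain ⟨h1, h2, h3⟩ := leaf_facts hG hw hconn
  exact ⟨u, w, fun h => huv h.symm, fun h => hw.ne h.symm, h1, h2, h3⟩

theorem card_compl_one [Fintype V] [DecidableEq V] (u : V) :
    Fintype.card ({u}ᶜ : Set V) = Fintype.card V - 1 := by
  rw [Fintype.card_compl_set]
  simp

theorem exists_rep (n : ℕ) : ∀ (V : Type) [Fintype V] [DecidableEq V] (G : SimpleGraph V),
    G.IsTree → Fintype.card V = n + 1 → ∀ v, ∃ R, Rep G.dist v R := by
  induction n with
  | zero =>
    intro V _ _ G _ hc v
    have hc' : Fintype.card V = 1 := by omega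
    obtain ⟨x, hx⟩ := Fintype.card_eq_one_iff.mp hc'
    refine ⟨RT.single, ⟨⟨fun _ => (), fun _ => x, fun y => (hx y).symm, fun _ => rfl⟩, rfl, ?_⟩⟩
    intro a b
    rw [hx a, hx b, SimpleGraph.dist_self]; rfl
  | succ n ih =>
    intro V _ _ G hG hc v
    obtain ⟨u, w, hv, hw, hT, hd, hl⟩ := exists_leaf G hG (by omega) v
    obtain ⟨R', ψ, hψ, hD⟩ := ih ({u}ᶜ : Set V) (G.induce {u}ᶜ) hT
      (by rw [card_compl_one]; omega) ⟨v, hv⟩
    obtain ⟨R'', φ, h1, h2, h3⟩ := R'.addLeaf (ψ ⟨w, hw⟩)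
    exact ⟨R'', glue G.dist (fun x y => G.dist_comm) (fun x => SimpleGraph.dist_self) u v w hv hw hl
      R' R'' ψ hψ (fun x y => by rw [← hd, hD]) φ h1 h2 h3⟩

theorem RT.eq_single {R : RT} (h : R.n = 1) : R = RT.single := by
  cases R with
  | single => rfl
  | graft T S =>
    have := T.n_pos
    have := S.n_pos
    simp only [RT.n] at h
    omega

theorem RT.eq_edge {R : RT} (h : R.n = 2) : R = RT.graft RT.single RT.single := by
  cases R with
  | single => simp [RT.n] at h
  | graft T S =>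
    have := T.n_pos
    have := S.n_pos
    simp only [RT.n] at h
    rw [RT.eq_single (show T.n = 1 by omega), RT.eq_single (show S.n = 1 by omega)]

theorem TH_all (n : ℕ) : ∀ (V : Type) [Fintype V] [DecidableEq V] (G : SimpleGraph V),
    G.IsTree → Fintype.card V = n + 2 → ∀ v R, Rep G.dist v R → TH (n + 2) R.P := by
  induction n with
  | zero =>
    intro V _ _ G _ hc v R hR
    have := hR.card
    rw [RT.eq_edge (show R.n = 2 by omega)]
    exact TH_base
  | succ n ih =>
    intro V _ _ G hG hc v R hR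
    obtain ⟨u, w, hv, hw, hT, hd, hl⟩ := exists_leaf G hG (by omega) v
    have hc' : Fintype.card ({u}ᶜ : Set V) = n + 2 := by rw [card_compl_one]; omega
    obtain ⟨R', hR'⟩ := exists_rep (n + 1) ({u}ᶜ : Set V) (G.induce {u}ᶜ) hT hc' ⟨w, hw⟩
    have hTH := ih ({u}ᶜ : Set V) (G.induce {u}ᶜ) hT hc' ⟨w, hw⟩ R' hR'
    have hn' := hR'.card
    rw [hc'] at hn'
    obtain ⟨ψ, hψ, hD⟩ := hR'
    have hrep : Rep G.dist w (RT.graft R' RT.single) := by
      refine glue G.dist (fun x y => G.dist_comm) (fun x => SimpleGraph.dist_self) u w w hw hw hl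
        R' (RT.graft R' RT.single) ψ hψ (fun x y => by rw [← hd, hD])
        (Equiv.optionEquivSumPUnit R'.V) rfl ?_ ?_
      · intro z z'; rfl
      · intro z
        rw [hψ]
        change R'.dist R'.root z + 1 + 0 = R'.dist z R'.root + 1
        rw [RT.dist_symm, add_zero]
    rw [hR.P_eq hrep (by omega)]
    have := TH_step R' (by omega) (by rw [hn']; exact hTH)
    rw [hn'] at this
    exact this

/-- Final statement on the integer coefficients. -/
theorem tree_peak (V : Type) [Fintype V] [DecidableEq V] (G : SimpleGraph V) (hG : G.IsTree)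
    (hc : 3 ≤ Fintype.card V) :
    ∃ (C : ℝ) (p : ℕ → ℝ), 0 ≤ C ∧ (∀ k ≤ Fintype.card V - 2, 0 ≤ p k) ∧
      (∀ k, |((distMat G.dist).charpoly.coeff k : ℝ)| * 2 ^ k = C * |p k|) ∧
      ∃ k : ℕ, k ≤ Fintype.card V - 2 ∧ (∀ j ≤ Fintype.card V - 2, p j ≤ p k) ∧
        Fintype.card V / 2 ≤ k ∧
        k ≤ ⌈(1 - 1 / Real.sqrt 5) * (Fintype.card V : ℝ)⌉₊ := by
  have hne : Nonempty V := Fintype.card_pos_iff.mp (by omega)
  obtain ⟨v⟩ := hne
  obtain ⟨R, hR⟩ := exists_rep (Fintype.card V - 1) V G hG (by omega) v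
  have hTH := TH_all (Fintype.card V - 2) V G hG (by omega) v R hR
  have hn := hR.card
  have e : Fintype.card V - 2 + 2 = R.n := by omega
  rw [e] at hTH
  obtain ⟨h0, hlink⟩ := R.link (by omega)
  rw [← hR.charpoly] at h0 hlink
  have hpk := R.peak (by omega) hTH
  rw [hn] at hpk
  obtain ⟨k, hk1, hk2, hk3, hk4⟩ := hpk
  have hn1 : (0 : ℝ) < (R.n : ℝ) - 1 := by
    have : (3 : ℝ) ≤ R.n := by rw [hn]; exact_mod_cast hc
    linarith
  refine ⟨|((distMat G.dist).charpoly.coeff 0 : ℝ)| / ((R.n : ℝ) - 1), fun k => (R.P.coeff k : ℝ),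
    by positivity, ?_, ?_, k, hk1, ?_, hk3, hk4⟩
  · intro k hk
    change (0 : ℝ) ≤ (R.P.coeff k : ℝ)
    exact_mod_cast hTH.nonneg k (by omega)
  · intro k
    have := hlink k
    have h2 : ((R.n : ℝ) - 1) * 2 ^ k * ((distMat G.dist).charpoly.coeff k : ℝ)
        = ((distMat G.dist).charpoly.coeff 0 : ℝ) * (R.P.coeff k : ℝ) := by exact_mod_cast this
    have h3 := congrArg abs h2
    rw [abs_mul, abs_mul, abs_mul, abs_of_pos hn1, abs_of_pos (show (0 : ℝ) < 2 ^ k by positivity)]
      at h3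
    rw [div_mul_eq_mul_div, ← h3]
    field_simp
  · intro j hj
    change (R.P.coeff j : ℝ) ≤ (R.P.coeff k : ℝ)
    exact_mod_cast hk2 j hj

end Pool.Agent.MP_5d54aa_co
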