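import Mathlib

set_option autoImplicit false

open Polynomial

namespace Pool.Agent.MP_5d54aa_co

/-- The cone `𝒦_c`: nonnegative integer combinations of `X^J (1+X)^s` with `2J+s ≥ c`. -/
inductive Cone (c : ℤ) : ℤ[X] → Prop
  | zero : Cone c 0
  | mono (J s : ℕ) (h : c ≤ 2 * J + s) : Cone c (X ^ J * (1 + X) ^ s)
  | add (f g : ℤ[X]) : Cone c f → Cone c g → Cone c (f + g)

theorem Cone.weaken {c d : ℤ} {f : ℤ[X]} (hf : Cone c f) (h : d ≤ c) : Cone d f := by
  induction hf with
  | zero => exact Cone.zero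
  | mono J s h' => exact Cone.mono J s (h.trans h')
  | add f g _ _ ihf ihg => exact Cone.add f g ihf ihg

theorem Cone.mul {c d : ℤ} {f g : ℤ[X]} (hf : Cone c f) (hg : Cone d g) :
    Cone (c + d) (f * g) := by
  induction hf with
  | zero => simpa using Cone.zero
  | add f f' _ _ ih ih' => rw [add_mul]; exact Cone.add _ _ ih ih'
  | mono J s h =>
    induction hg with
    | zero => simpa using Cone.zero
    | add g g' _ _ ih ih' => rw [mul_add]; exact Cone.add _ _ ih ih'
    | mono J' s' h' =>
      have : (X ^ J * (1 + X) ^ s) * (X ^ J' * (1 + X) ^ s')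
          = (X : ℤ[X]) ^ (J + J') * (1 + X) ^ (s + s') := by ring
      rw [this]
      exact Cone.mono _ _ (by push_cast; linarith)

theorem Cone.add' {c d e : ℤ} {f g : ℤ[X]} (hf : Cone c f) (hg : Cone d g)
    (h1 : e ≤ c) (h2 : e ≤ d) : Cone e (f + g) :=
  Cone.add _ _ (hf.weaken h1) (hg.weaken h2)

theorem Cone.X_mul {c : ℤ} {f : ℤ[X]} (hf : Cone c f) : Cone (c + 2) (X * f) := by
  have h : Cone 2 (X : ℤ[X]) := by simpa using Cone.mono (c := 2) 1 0 (by norm_num)
  have := h.mul hf
  rwa [add_comm] at this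

theorem Cone.oneX_mul {c : ℤ} {f : ℤ[X]} (hf : Cone c f) : Cone (c + 1) ((1 + X) * f) := by
  have h : Cone 1 (1 + X : ℤ[X]) := by simpa using Cone.mono (c := 1) 0 1 (by norm_num)
  have := h.mul hf
  rwa [add_comm] at this

theorem Cone.one : Cone 0 (1 : ℤ[X]) := by simpa using Cone.mono (c := 0) 0 0 (by norm_num)

theorem Cone.nsmul {c : ℤ} {f : ℤ[X]} (hf : Cone c f) (k : ℕ) : Cone c (k * f) := by
  induction k with
  | zero => simpa using Cone.zero
  | succ k ih =>
    have : ((k + 1 : ℕ) : ℤ[X]) * f = k * f + f := by push_cast; ring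
    rw [this]
    exact Cone.add _ _ ih hf

theorem choose_le_of_add_le {s j k : ℕ} (hjk : j ≤ k) (h : j + k ≤ s) :
    s.choose j ≤ s.choose k := by
  -- monotone below the middle
  have key : ∀ k, j ≤ k → k ≤ s / 2 → s.choose j ≤ s.choose k := by
    intro k hk
    induction k, hk using Nat.le_induction with
    | base => intro _; exact le_rfl
    | succ m hm ih =>
      intro h2
      exact (ih (by omega)).trans (Nat.choose_le_succ_of_lt_half_left (by omega))
  by_cases hk : k ≤ s / 2
  · exact key k hjk hk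
  · rw [← Nat.choose_symm (show k ≤ s by omega)]
    exact key (s - k) (by omega) (by omega)

theorem coeff_mono (J s k : ℕ) :
    ((X : ℤ[X]) ^ J * (1 + X) ^ s).coeff k = if J ≤ k then ((s.choose (k - J) : ℕ) : ℤ) else 0 := by
  rw [Polynomial.coeff_X_pow_mul']
  split_ifs with h
  · rw [add_comm, Polynomial.coeff_X_add_one_pow]
  · rfl

theorem Cone.nonneg {c : ℤ} {f : ℤ[X]} (hf : Cone c f) (k : ℕ) : 0 ≤ f.coeff k := by
  induction hf with
  | zero => simp
  | mono J s h => rw [coeff_mono]; split_ifs <;> positivity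
  | add f g _ _ ih ih' => rw [coeff_add]; exact add_nonneg ih ih'

theorem Cone.coeff_le {c : ℤ} {f : ℤ[X]} (hf : Cone c f) {j k : ℕ} (hjk : j ≤ k)
    (h : (j + k : ℤ) ≤ c) : f.coeff j ≤ f.coeff k := by
  induction hf with
  | zero => simp
  | add f g _ _ ih ih' => rw [coeff_add, coeff_add]; exact add_le_add ih ih'
  | mono J s h' =>
    rw [coeff_mono, coeff_mono]
    by_cases h1 : J ≤ j
    · rw [if_pos h1, if_pos (h1.trans hjk)]
      exact_mod_cast choose_le_of_add_le (by omega) (by omega)
    · rw [if_neg h1]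
      split_ifs <;> positivity

end Pool.Agent.MP_5d54aa_co
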