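import Pool.Agent.Work.MP_5d54aa_co.RT

set_option autoImplicit false

open Polynomial

namespace Pool.Agent.MP_5d54aa_co

/-- Top-heaviness package for the polynomial `P` of a tree with `n` vertices. -/
structure TH (n : ℕ) (p : ℤ[X]) : Prop where
  mono : ∀ j k : ℕ, 1 ≤ j → j ≤ k → j + k + 1 = n → p.coeff j ≤ p.coeff k
  gap : ((n : ℤ) - 3) ^ 2 ≤ p.coeff (n - 2) - p.coeff 1
  nonneg : ∀ k, k ≠ n → 0 ≤ p.coeff k
  top : -4 ≤ p.coeff n
  zero : p.coeff 0 = (n : ℤ) - 1
  last : (n : ℤ) - 1 ≤ p.coeff (n - 2)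

theorem W_cone (R : RT) : Cone R.n (Yp R.pol + (1 + 4 * X) * R.pol.b) := by
  have fR := facts R
  have h1 := (Y_cone R).add' fR.hb.oneX_mul (e := R.n) le_rfl (by linarith)
  have h2 := h1.add' (fR.hb.X_mul.nsmul 3) (e := R.n) le_rfl (by linarith)
  convert h2 using 1; push_cast; ring

theorem coeff_leaf_zero (R : RT) : (RT.graft R RT.single).P.coeff 0 =
    R.P.coeff 0 + (Yp R.pol).coeff 0 + R.pol.b.coeff 0 := by
  rw [P_leaf]
  simp [Polynomial.mul_coeff_zero]
  ring

theorem coeff_W_succ (R : RT) (k : ℕ) :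
    (Yp R.pol + (1 + 4 * X) * R.pol.b).coeff (k + 1) =
      (Yp R.pol).coeff (k + 1) + R.pol.b.coeff (k + 1) + 4 * R.pol.b.coeff k := by
  have : (Yp R.pol + (1 + 4 * X) * R.pol.b) = Yp R.pol + R.pol.b + C 4 * (X * R.pol.b) := by
    rw [show (C 4 : ℤ[X]) = 4 by rfl]; ring
  rw [this, coeff_add, coeff_add, coeff_C_mul, coeff_X_mul]

theorem coeff_leaf_succ (R : RT) (k : ℕ) : (RT.graft R RT.single).P.coeff (k + 1) =
    R.P.coeff (k + 1) + R.P.coeff k +
      (Yp R.pol + (1 + 4 * X) * R.pol.b).coeff (k + 1) := by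
  rw [P_leaf, add_mul, one_mul, coeff_add, coeff_add, coeff_X_mul]

theorem TH_base : TH 2 (RT.graft RT.single RT.single).P := by
  have hP : (RT.graft RT.single RT.single).P = 1 - 4 * X ^ 2 := by
    unfold RT.P; simp only [RT.pol, Pol.comb]; ring
  have hc : ∀ k, (RT.graft RT.single RT.single).P.coeff k
      = (if k = 0 then 1 else 0) - (if k = 2 then 4 else 0) := by
    intro k
    rw [hP]
    have : (1 - 4 * X ^ 2 : ℤ[X]) = C 1 - C 4 * X ^ 2 := by simp
    rw [this, coeff_sub, coeff_C, coeff_C_mul_X_pow]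
  constructor
  · intro j k h1 h2 h3; omega
  · rw [hc, hc]; norm_num
  · intro k hk; rw [hc, if_neg hk]; split_ifs <;> norm_num
  · rw [hc]; norm_num
  · rw [hc]; norm_num
  · rw [hc]; norm_num

theorem TH_step (R : RT) (hn : 2 ≤ R.n) (h : TH R.n R.P) :
    TH (R.n + 1) (RT.graft R RT.single).P := by
  obtain ⟨m, hm⟩ : ∃ m, R.n = m + 2 := ⟨R.n - 2, by omega⟩
  have fR := facts R
  have hWc := W_cone R
  have hYc := Y_cone R
  obtain ⟨ha0, hb0⟩ := ab_coeff_zero R
  have hY0 := Y_coeff_zero R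
  have hbn : (1 : ℤ) ≤ R.pol.b.coeff (m + 1) := by
    have := b_coeff_ge R (m + 1)
    rw [hm] at this
    simpa using this
  have hb1 : (m + 1 : ℤ) ≤ R.pol.b.coeff 1 := by
    have := b_coeff_ge R 1
    rw [hm] at this
    simpa using this
  rw [hm] at h hWc hYc ⊢
  have hfb : Cone ((m : ℤ) + 1) R.pol.b := by
    have := fR.hb
    rw [hm] at this
    push_cast at this
    exact this.weaken (by linarith)
  push_cast at hWc hYc
  have hz := h.zero
  have hl := h.last
  have hg := h.gap
  push_cast at hz hl hg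
  -- the gap
  have gap : ((m : ℤ)) ^ 2 ≤ (RT.graft R RT.single).P.coeff (m + 1)
      - (RT.graft R RT.single).P.coeff 1 := by
    rcases Nat.eq_zero_or_pos m with rfl | hmpos
    · norm_num
    · have h1 := coeff_leaf_succ R m
      have h2 := coeff_leaf_succ R 0
      rw [coeff_W_succ] at h1 h2
      rw [zero_add] at h2
      rw [h1, h2]
      have g1 := h.nonneg (m + 1) (by omega)
      have g2 : (Yp R.pol).coeff 1 ≤ (Yp R.pol).coeff (m + 1) :=
        hYc.coeff_le (by omega) (by push_cast; linarith)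
      have g3 : R.pol.b.coeff 1 ≤ R.pol.b.coeff m :=
        hfb.coeff_le (by omega) (by push_cast; linarith)
      nlinarith
  constructor
  · intro j k h1 h2 h3
    rcases Nat.lt_or_ge j k with hlt | hge
    · obtain ⟨j, rfl⟩ : ∃ j', j = j' + 1 := ⟨j - 1, by omega⟩
      obtain ⟨k, rfl⟩ : ∃ k', k = k' + 1 := ⟨k - 1, by omega⟩
      rcases Nat.eq_zero_or_pos j with rfl | hj
      · have : k = m := by omega
        subst this
        have := sq_nonneg (k : ℤ)
        rw [zero_add]
        linarith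
      · rw [coeff_leaf_succ, coeff_leaf_succ]
        have w1 := hWc.coeff_le (show j + 1 ≤ k + 1 by omega) (by push_cast; omega)
        have w2 := h.mono j (k + 1) hj (by omega) (by omega)
        have w3 := h.mono (j + 1) k (by omega) (by omega) (by omega)
        linarith
    · have : j = k := le_antisymm h2 hge
      rw [this]
  · have e1 : m + 2 + 1 - 2 = m + 1 := by omega
    rw [e1]
    push_cast
    have : ((m : ℤ) + 2 + 1 - 3) ^ 2 = (m : ℤ) ^ 2 := by ring
    rw [this]
    exact gap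
  · intro k hk
    rcases Nat.eq_zero_or_pos k with rfl | hk0
    · rw [coeff_leaf_zero, hY0, hb0, hz]; omega
    · obtain ⟨k, rfl⟩ : ∃ k', k = k' + 1 := ⟨k - 1, by omega⟩
      rw [coeff_leaf_succ]
      have w1 := h.nonneg k (by omega)
      rcases eq_or_ne k (m + 1) with rfl | hk1
      · rw [coeff_W_succ]
        have w2 := h.top
        have w3 := hYc.nonneg (m + 1 + 1)
        have w4 := hfb.nonneg (m + 1 + 1)
        have : m + 1 + 1 = m + 2 := rfl
        rw [this] at *
        linarith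
      · have w2 := h.nonneg (k + 1) (by omega)
        have w3 := hWc.nonneg (k + 1)
        linarith
  · rw [coeff_leaf_succ]
    have w1 := h.nonneg (m + 2 + 1) (by omega)
    have w2 := h.top
    have w3 := hWc.nonneg (m + 2 + 1)
    linarith
  · rw [coeff_leaf_zero, hY0, hb0, hz]; push_cast; ring
  · have e1 : m + 2 + 1 - 2 = m + 1 := by omega
    rw [e1, coeff_leaf_succ, coeff_W_succ]
    have w1 := h.nonneg (m + 1) (by omega)
    have w3 := hYc.nonneg (m + 1)
    have w4 := hfb.nonneg m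
    push_cast
    linarith

end Pool.Agent.MP_5d54aa_co
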