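import Pool.Agent.Work.MP_5d54aa_co.RT

set_option autoImplicit false

open Polynomial

namespace Pool.Agent.MP_5d54aa_co

/-- nonnegativity of the auxiliary quartic -/
theorem h_nonneg (k u : ℝ) (hk1 : (0.447 : ℝ) < k) (hk2 : k < 0.4473) (hu : 0 ≤ u)
    (hu2 : u ≤ 1 / 2) :
    0 ≤ (504 / 125 + 72 / 25 * k) + (-426 / 125 - 102 / 25 * k) * u
      + (-783 / 250 + 277 / 50 * k) * u ^ 2 + (41 / 25 - k) * u ^ 3 - 1 / 5 * u ^ 4 := by
  have h1 : (-426 / 125 - 102 / 25 * k) * u ≥ -2.7 := by nlinarith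
  have h2 : (-783 / 250 + 277 / 50 * k) * u ^ 2 ≥ -0.2 := by nlinarith
  have h3 : 0 ≤ (41 / 25 - k) * u ^ 3 := by
    apply mul_nonneg <;> [linarith; positivity]
  have h4 : u ^ 4 ≤ 1 := by
    have : u ^ 4 ≤ 1 ^ 4 := pow_le_pow_left₀ hu (by linarith) 4
    simpa using this
  nlinarith

/-- The one-child inequality. -/
theorem G1_nonneg (k u v : ℝ) (hk : k ^ 2 = 1 / 5) (hk1 : (0.447 : ℝ) < k) (hk2 : k < 0.4473)
    (hu : 0 ≤ u) (hu2 : u ≤ 1 / 2) :
    0 ≤ (3 - u) ^ 2 * (-k - 3 / 5 * k * u - k * u * v + 1 / 10 * (v - k) ^ 2)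
      + (3 - u) * (1 + u * v) + 3 / 5 * k * (3 - u) + k * (1 + u * v)
      - 1 / 10 * (1 + u * v - k * (3 - u)) ^ 2 := by
  have hal : 0 < (9 - 6 * u) / 10 := by linarith
  have hh := h_nonneg k u hk1 hk2 hu hu2
  set N := (3 - u) ^ 2 * (-k - 3 / 5 * k * u - k * u * v + 1 / 10 * (v - k) ^ 2)
      + (3 - u) * (1 + u * v) + 3 / 5 * k * (3 - u) + k * (1 + u * v)
      - 1 / 10 * (1 + u * v - k * (3 - u)) ^ 2 with hN
  have key : 4 * ((9 - 6 * u) / 10) * N
      = (2 * ((9 - 6 * u) / 10) * v + ((14/5)*u - u^2 + (-9/5)*k + (-31/5)*k*u + (28/5)*k*u^2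
          - k*u^3)) ^ 2
        + (u - (3 - 5 * k) / 2) ^ 2 * ((504 / 125 + 72 / 25 * k) + (-426 / 125 - 102 / 25 * k) * u
      + (-783 / 250 + 277 / 50 * k) * u ^ 2 + (41 / 25 - k) * u ^ 3 - 1 / 5 * u ^ 4) := by
    rw [hN]
    linear_combination ((-171/25) + (-2301/50)*u + (12649/200)*u^2 + (2039/100)*u^3
      + (-3751/100)*u^4 + (56/5)*u^5 + (-1)*u^6 + (-18)*k + (51/2)*k*u + (-277/8)*k*u^2
      + (25/4)*k*u^3) * hk
  have : 0 ≤ 4 * ((9 - 6 * u) / 10) * N := by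
    rw [key]; positivity
  by_contra hneg
  push Not at hneg
  have : 4 * ((9 - 6 * u) / 10) * N < 0 := by
    apply mul_neg_of_pos_of_neg _ hneg
    linarith
  linarith

/-- The inequality with at least two children. -/
theorem G2_nonneg (k A B : ℝ) (hk : k ^ 2 = 1 / 5) (hk1 : (0.447 : ℝ) < k) (hk2 : k < 0.4473)
    (hA : 1 ≤ A) (hB : 0 ≤ B) (hB2 : B ≤ A / 2) :
    0 ≤ (2 + A) ^ 2 * (-k + 3 / 5 * k * A - k * B + 3 / 100 * (A + 2 * B) - 3 / 5 * k - 3 / 100
          - 1 / 10 * k ^ 2)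
      + (2 + A) * ((1 + B) + 3 / 5 * k + 2 / 10 * k * (1 + B)) + k * (1 + B)
      - 1 / 10 * (1 + B) ^ 2 := by
  obtain ⟨x, rfl⟩ : ∃ x, A = 1 + x := ⟨A - 1, by ring⟩
  obtain ⟨w, rfl⟩ : ∃ w, B = (1 + x) / 2 - w := ⟨(1 + x) / 2 - B, by ring⟩
  have hx : 0 ≤ x := by linarith
  have hw : 0 ≤ w := by linarith
  have hw2 : w ≤ (1 + x) / 2 := by linarith
  have e : (2 + (1 + x)) ^ 2 * (-k + 3 / 5 * k * (1 + x) - k * ((1 + x) / 2 - w)
          + 3 / 100 * ((1 + x) + 2 * ((1 + x) / 2 - w)) - 3 / 5 * k - 3 / 100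
          - 1 / 10 * k ^ 2)
      + (2 + (1 + x)) * ((1 + ((1 + x) / 2 - w)) + 3 / 5 * k
        + 2 / 10 * k * (1 + ((1 + x) / 2 - w))) + k * (1 + ((1 + x) / 2 - w))
      - 1 / 10 * (1 + ((1 + x) / 2 - w)) ^ 2
      = (873/200 - 93/10 * k) + ((-81/25) + 37/5 * k) * w + (-1/10)*w^2 + (69/20 - 32/5 * k)*x
        + (-63/50 + 29/5 * k)*x*w + (169/200 - 4/5 * k)*x^2 + (-3/50 + k)*x^2*w
        + (3/50 + 1/10 * k)*x^3 := by
    linear_combination (-(1/10) * (3 + x) ^ 2) * hk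
  rw [e]
  have t1 : 0 ≤ (873/200 - 93/10 * k) := by linarith
  have t2 : 0 ≤ (((-81/25) + 37/5 * k) - 1/20) * w := mul_nonneg (by linarith) hw
  have t3 : 0 ≤ w * ((1 + x) / 2 - w) := mul_nonneg hw (by linarith)
  have t4 : 0 ≤ (69/20 - 32/5 * k)*x := mul_nonneg (by linarith) hx
  have t5 : 0 ≤ ((-63/50 + 29/5 * k) - 1/20)*(x*w) :=
    mul_nonneg (by linarith) (mul_nonneg hx hw)
  have t6 : 0 ≤ (169/200 - 4/5 * k)*x^2 := mul_nonneg (by linarith) (by positivity)
  have t7 : 0 ≤ (-3/50 + k)*(x^2*w) := mul_nonneg (by linarith) (by positivity)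
  have t8 : 0 ≤ (3/50 + 1/10 * k)*x^3 := mul_nonneg (by linarith) (by positivity)
  nlinarith

/-- `κ = 1/√5` -/
noncomputable def kap : ℝ := 1 / Real.sqrt 5

theorem kap_sq : kap ^ 2 = 1 / 5 := by
  unfold kap; rw [div_pow, Real.sq_sqrt (by norm_num)]; norm_num

theorem kap_pos : 0 < kap := by unfold kap; positivity

theorem kap_lo : (0.447 : ℝ) < kap := by
  have h1 := kap_sq; have h2 := kap_pos
  by_contra h; push Not at h; nlinarith

theorem kap_hi : kap < 0.4473 := by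
  have h1 := kap_sq; have h2 := kap_pos
  by_contra h; push Not at h; nlinarith

noncomputable def RT.A : RT → ℝ
  | RT.single => 0
  | RT.graft T S => T.A + 1 - 1 / (2 + S.A)

noncomputable def RT.B : RT → ℝ
  | RT.single => 0
  | RT.graft T S => T.B + (1 / (2 + S.A)) ^ 2 * (1 + S.B)

noncomputable def RT.Z : RT → ℝ
  | RT.single => 0
  | RT.graft T S => T.Z + (-kap + S.Z + (1 + S.B) / (2 + S.A))

noncomputable def RT.t : RT → ℝ
  | RT.single => 0
  | RT.graft T _ => T.t + 1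

structure UI (R : RT) : Prop where
  ht : 0 ≤ R.t
  hA : R.t / 2 ≤ R.A
  hB : 0 ≤ R.B
  hB2 : R.B ≤ (R.t - R.A) / 2
  hZ : 3 / 5 * kap * R.A - kap * R.B + 3 / 100 * R.t ≤ R.Z
  hY : 3 / 5 * kap * (1 - 1 / (2 + R.A)) - kap * ((1 + R.B) / (2 + R.A) ^ 2) + 3 / 100
      + 1 / 10 * ((1 + R.B) / (2 + R.A) - kap) ^ 2 ≤ -kap + R.Z + (1 + R.B) / (2 + R.A)

theorem RT.t_zero_or (R : RT) : R = RT.single ∨ (1 ≤ R.t) := by
  have : ∀ R : RT, 0 ≤ R.t := by
    intro R
    induction R with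
    | single => exact le_rfl
    | graft T S ih _ => simp only [RT.t]; linarith
  cases R with
  | single => left; rfl
  | graft T S => right; simp only [RT.t]; linarith [this T]

theorem UI_all (R : RT) : UI R := by
  have hk := kap_sq
  have hk1 := kap_lo
  have hk2 := kap_hi
  induction R with
  | single =>
    constructor <;> simp only [RT.t, RT.A, RT.B, RT.Z] <;> try norm_num
    nlinarith
  | graft T S ihT ihS =>
    have hSA : 0 ≤ S.A := by have := ihS.hA; have := ihS.ht; linarith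
    have hTA : 0 ≤ T.A := by have := ihT.hA; have := ihT.ht; linarith
    have hq : 0 < 2 + S.A := by linarith
    set u := 1 / (2 + S.A) with hu
    set v := (1 + S.B) / (2 + S.A) with hv
    have hu0 : 0 < u := by positivity
    have hu2 : u ≤ 1 / 2 := by
      rw [hu, div_le_div_iff₀ hq (by norm_num)]; linarith
    have hv0 : 0 ≤ v := by have := ihS.hB; positivity
    have hv2 : v ≤ 1 / 2 := by
      rw [hv, div_le_div_iff₀ hq (by norm_num)]
      have := ihS.hB2; have := ihS.hA; linarith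
    have huv : (1 + S.B) / (2 + S.A) ^ 2 = u * v := by
      rw [hu, hv]; field_simp
    have hB' : (RT.graft T S).B = T.B + u * v := by
      simp only [RT.B]; rw [← hu, hu, hv]; field_simp
    have hA' : (RT.graft T S).A = T.A + 1 - u := rfl
    have hZ' : (RT.graft T S).Z = T.Z + (-kap + S.Z + v) := rfl
    have ht' : (RT.graft T S).t = T.t + 1 := rfl
    have hYS := ihS.hY
    rw [huv, ← hu, ← hv] at hYS
    have huv0 : 0 ≤ u * v := by positivity
    have huv2 : u * v ≤ u / 2 := by nlinarith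
    have c1 : 0 ≤ (RT.graft T S).t := by rw [ht']; linarith [ihT.ht]
    have c2 : (RT.graft T S).t / 2 ≤ (RT.graft T S).A := by
      rw [ht', hA']; linarith [ihT.hA]
    have c3 : 0 ≤ (RT.graft T S).B := by rw [hB']; linarith [ihT.hB]
    have c4 : (RT.graft T S).B ≤ ((RT.graft T S).t - (RT.graft T S).A) / 2 := by
      rw [hB', ht', hA']; linarith [ihT.hB2]
    have c5 : 3 / 5 * kap * (RT.graft T S).A - kap * (RT.graft T S).B
        + 3 / 100 * (RT.graft T S).t ≤ (RT.graft T S).Z := by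
      rw [hB', ht', hA', hZ']
      nlinarith [ihT.hZ, sq_nonneg (v - kap)]
    refine ⟨c1, c2, c3, c4, c5, ?_⟩
    rcases T.t_zero_or with rfl | hT1
    · -- one child
      have eA : (RT.graft RT.single S).A = 1 - u := by rw [hA']; simp [RT.A]
      have eB : (RT.graft RT.single S).B = u * v := by rw [hB']; simp [RT.B]
      have eZ : (RT.graft RT.single S).Z = -kap + S.Z + v := by rw [hZ']; simp [RT.Z]
      rw [eA, eB, eZ]
      have hG := G1_nonneg kap u v hk hk1 hk2 hu0.le hu2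
      have h3u : 0 < 3 - u := by linarith
      have e1 : (2 + (1 - u)) = 3 - u := by ring
      rw [e1]
      have : 0 ≤ (-kap - 3 / 5 * kap * u - kap * u * v + 1 / 10 * (v - kap) ^ 2)
          + (1 + u * v) / (3 - u) + 3 / 5 * kap * (1 / (3 - u)) + kap * ((1 + u * v) / (3 - u) ^ 2)
          - 1 / 10 * ((1 + u * v) / (3 - u) - kap) ^ 2 := by
        have e2 : (-kap - 3 / 5 * kap * u - kap * u * v + 1 / 10 * (v - kap) ^ 2)
          + (1 + u * v) / (3 - u) + 3 / 5 * kap * (1 / (3 - u)) + kap * ((1 + u * v) / (3 - u) ^ 2)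
          - 1 / 10 * ((1 + u * v) / (3 - u) - kap) ^ 2
          = ((3 - u) ^ 2 * (-kap - 3 / 5 * kap * u - kap * u * v + 1 / 10 * (v - kap) ^ 2)
      + (3 - u) * (1 + u * v) + 3 / 5 * kap * (3 - u) + kap * (1 + u * v)
      - 1 / 10 * (1 + u * v - kap * (3 - u)) ^ 2) / (3 - u) ^ 2 := by
          field_simp
        rw [e2]; positivity
      nlinarith
    · -- at least two children
      set A := (RT.graft T S).A with hAdef
      set B := (RT.graft T S).B with hBdef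
      set Z := (RT.graft T S).Z with hZdef
      set t := (RT.graft T S).t with htdef
      have ht2 : 2 ≤ t := by rw [ht']; linarith
      have hA1 : 1 ≤ A := by linarith
      have hG := G2_nonneg kap A B hk hk1 hk2 hA1 c3 (by linarith)
      have hq' : 0 < 2 + A := by linarith
      have : 0 ≤ (-kap + 3 / 5 * kap * A - kap * B + 3 / 100 * (A + 2 * B) - 3 / 5 * kap - 3 / 100)
          + (1 + B) / (2 + A) + 3 / 5 * kap * (1 / (2 + A)) + kap * ((1 + B) / (2 + A) ^ 2)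
          - 1 / 10 * ((1 + B) / (2 + A) - kap) ^ 2 := by
        have e2 : (-kap + 3 / 5 * kap * A - kap * B + 3 / 100 * (A + 2 * B) - 3 / 5 * kap - 3 / 100)
          + (1 + B) / (2 + A) + 3 / 5 * kap * (1 / (2 + A)) + kap * ((1 + B) / (2 + A) ^ 2)
          - 1 / 10 * ((1 + B) / (2 + A) - kap) ^ 2
          = ((2 + A) ^ 2 * (-kap + 3 / 5 * kap * A - kap * B + 3 / 100 * (A + 2 * B) - 3 / 5 * kap
              - 3 / 100 - 1 / 10 * kap ^ 2)
            + (2 + A) * ((1 + B) + 3 / 5 * kap + 2 / 10 * kap * (1 + B)) + kap * (1 + B)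
            - 1 / 10 * (1 + B) ^ 2) / (2 + A) ^ 2 := by
          field_simp
          ring
        rw [e2]; positivity
      have hAB : A + 2 * B ≤ t := by linarith
      nlinarith

theorem eval_one_all (R : RT) :
    0 < ((R.pol.b.eval 1 : ℤ) : ℝ) ∧
    ((R.pol.a.eval 1 : ℤ) : ℝ) = (1 + R.A) * ((R.pol.b.eval 1 : ℤ) : ℝ) ∧
    (((derivative R.pol.b).eval 1 : ℤ) : ℝ) =
      ((1 - kap) * (R.n - 1) - R.Z) * ((R.pol.b.eval 1 : ℤ) : ℝ) ∧
    (((derivative R.pol.a).eval 1 : ℤ) : ℝ) =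
      ((R.A - R.B) + (1 + R.A) * ((1 - kap) * (R.n - 1) - R.Z)) * ((R.pol.b.eval 1 : ℤ) : ℝ) := by
  induction R with
  | single => simp [RT.pol, RT.A, RT.B, RT.Z, RT.n]
  | graft T S ihT ihS =>
    obtain ⟨t1, t2, t3, t4⟩ := ihT
    obtain ⟨s1, s2, s3, s4⟩ := ihS
    have hSA : 0 ≤ S.A := by
      have h := UI_all S
      have := h.hA; have := h.ht; linarith
    have hq : (2 + S.A) ≠ 0 := by positivity
    have eb : (((RT.graft T S).pol.b.eval 1 : ℤ) : ℝ)
        = ((T.pol.b.eval 1 : ℤ) : ℝ) * ((2 + S.A) * ((S.pol.b.eval 1 : ℤ) : ℝ)) := by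
      simp only [RT.pol, Pol.comb, eval_mul, eval_add, eval_X]
      push_cast
      rw [s2]; ring
    have ea : (((RT.graft T S).pol.a.eval 1 : ℤ) : ℝ)
        = (1 + (RT.graft T S).A) * (((RT.graft T S).pol.b.eval 1 : ℤ) : ℝ) := by
      rw [eb]
      simp only [RT.pol, Pol.comb, eval_mul, eval_add, eval_X, RT.A]
      push_cast
      rw [s2, t2]; field_simp; ring
    have edb : (((derivative (RT.graft T S).pol.b).eval 1 : ℤ) : ℝ)
        = ((1 - kap) * ((RT.graft T S).n - 1) - (RT.graft T S).Z)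
          * (((RT.graft T S).pol.b.eval 1 : ℤ) : ℝ) := by
      rw [eb]
      simp only [RT.pol, Pol.comb, derivative_mul, derivative_add, derivative_X, eval_mul,
        eval_add, eval_X, RT.Z, RT.n, eval_one]
      push_cast
      rw [s2, s3, s4, t3]; field_simp; ring
    have eda : (((derivative (RT.graft T S).pol.a).eval 1 : ℤ) : ℝ)
        = (((RT.graft T S).A - (RT.graft T S).B)
          + (1 + (RT.graft T S).A) * ((1 - kap) * ((RT.graft T S).n - 1) - (RT.graft T S).Z))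
          * (((RT.graft T S).pol.b.eval 1 : ℤ) : ℝ) := by
      rw [eb]
      simp only [RT.pol, Pol.comb, derivative_mul, derivative_add, derivative_X, eval_mul,
        eval_add, eval_X, RT.Z, RT.A, RT.B, RT.n, eval_one]
      push_cast
      rw [s2, s3, s4, t2, t3, t4]; field_simp; ring
    refine ⟨?_, ea, edb, eda⟩
    rw [eb]; positivity

/-- The mean bound `a'(1) ≤ (1 - 1/√5) n a(1)`. -/
theorem mean_le (R : RT) :
    (((derivative R.pol.a).eval 1 : ℤ) : ℝ) ≤ (1 - 1 / Real.sqrt 5) * R.n * ((R.pol.a.eval 1 : ℤ) : ℝ)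
      ∧ 0 < ((R.pol.a.eval 1 : ℤ) : ℝ) := by
  obtain ⟨t1, t2, t3, t4⟩ := eval_one_all R
  have h := UI_all R
  have hA0 : 0 ≤ R.A := by have := h.hA; have := h.ht; linarith
  have hpos : 0 < ((R.pol.a.eval 1 : ℤ) : ℝ) := by rw [t2]; positivity
  refine ⟨?_, hpos⟩
  change _ ≤ (1 - kap) * R.n * _
  rw [t4, t2]
  have hY := h.hY
  have hk1 := kap_lo
  have hk2 := kap_hi
  have hk := kap_sq
  have hq : 0 < 2 + R.A := by linarith
  have hq1 : 0 < 1 + R.A := by linarith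
  have hs : 1 / (2 + R.A) ≤ 1 / 2 := by
    rw [div_le_div_iff₀ hq (by norm_num)]; linarith
  have hv : (1 + R.B) / (2 + R.A) ≤ 1 / 2 := by
    rw [div_le_div_iff₀ hq (by norm_num)]
    have := h.hB2; have := h.hA; linarith
  have hB0 := h.hB
  have hsv : (1 + R.B) / (2 + R.A) ^ 2 ≤ 1 / 4 := by
    have : (1 + R.B) / (2 + R.A) ^ 2 = (1 / (2 + R.A)) * ((1 + R.B) / (2 + R.A)) := by
      field_simp
    rw [this]
    have h1 : 0 ≤ 1 / (2 + R.A) := by positivity
    have h2 : 0 ≤ (1 + R.B) / (2 + R.A) := by positivity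
    nlinarith
  have hY0 : 0 ≤ -kap + R.Z + (1 + R.B) / (2 + R.A) := by
    nlinarith [sq_nonneg ((1 + R.B) / (2 + R.A) - kap)]
  have hle : (1 + R.B) / (2 + R.A) ≤ (1 + R.B) / (1 + R.A) := by
    apply div_le_div_of_nonneg_left (by linarith) hq1 (by linarith)
  have hfin : 0 ≤ (1 + R.A) * (-kap + R.Z) + (1 + R.B) := by
    have : 0 ≤ (1 + R.A) * (-kap + R.Z + (1 + R.B) / (1 + R.A)) :=
      mul_nonneg hq1.le (by linarith)
    have e : (1 + R.A) * (-kap + R.Z + (1 + R.B) / (1 + R.A))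
        = (1 + R.A) * (-kap + R.Z) + (1 + R.B) := by field_simp
    rwa [e] at this
  nlinarith

end Pool.Agent.MP_5d54aa_co
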