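import Pool.Agent.Work.MP_5d54aa_co.Mat3
import Pool.Agent.Work.MP_5d54aa_co.Lower
import Pool.Agent.Work.MP_5d54aa_co.UPot

set_option autoImplicit false

open Polynomial Matrix

namespace Pool.Agent.MP_5d54aa_co

/-- integer distance matrix -/
def distMat {V : Type} (D : V → V → ℕ) : Matrix V V ℤ := Matrix.of fun i j => (D i j : ℤ)

theorem RT.link (R : RT) (hn : 2 ≤ R.n) :
    (distMat R.dist).charpoly.coeff 0 ≠ 0 ∧
    ∀ k, ((R.n : ℤ) - 1) * 2 ^ k * (distMat R.dist).charpoly.coeff k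
      = (distMat R.dist).charpoly.coeff 0 * R.P.coeff k := by
  have hmap : (distMat R.dist).map (Int.castRingHom ℝ) = R.D := by
    ext i j
    simp [distMat, RT.D]
  have hch : R.D.charpoly = (distMat R.dist).charpoly.map (Int.castRingHom ℝ) := by
    rw [← hmap, Matrix.charpoly_map]
  have hco : ∀ k, R.D.charpoly.coeff k = ((distMat R.dist).charpoly.coeff k : ℝ) := by
    intro k; rw [hch, coeff_map]; rfl
  have hdet := Matrix.det_eq_sign_charpoly_coeff R.D
  have hpoly : C ((R.n : ℝ) - 1) * R.D.charpoly.comp (C 2 * X)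
      = C (R.D.charpoly.coeff 0) * rp R.P := by
    apply poly_ext_pos
    intro y hy
    rw [eval_mul, eval_mul, eval_C, eval_C, eval_comp, eval_mul, eval_C, eval_X,
      Matrix.eval_charpoly, rp_eval]
    have e1 : (Matrix.scalar R.V (2 * y) - R.D) = -(R.D - (2 * y) • 1) := by
      rw [neg_sub]
      congr 1
      ext i j
      simp [Matrix.scalar_apply, Matrix.diagonal_apply, Matrix.one_apply]
    rw [e1, det_neg]
    have h := R.det_D_sub hn y hy
    calc ((R.n : ℝ) - 1) * ((-1) ^ Fintype.card R.V * (R.D - (2 * y) • 1).det)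
        = (-1) ^ Fintype.card R.V * (((R.n : ℝ) - 1) * (R.D - (2 * y) • 1).det) := by ring
      _ = (-1) ^ Fintype.card R.V * ((-1) ^ Fintype.card R.V * R.D.charpoly.coeff 0
            * ev y R.P) := by rw [h, hdet]
      _ = ((-1) ^ Fintype.card R.V * (-1) ^ Fintype.card R.V) * (R.D.charpoly.coeff 0
            * ev y R.P) := by ring
      _ = _ := by rw [← mul_pow]; norm_num
  refine ⟨?_, ?_⟩
  · intro h0
    apply R.D_det_ne hn
    rw [hdet, hco, h0]; simp
  · intro k
    have := congrArg (fun p => p.coeff k) hpoly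
    simp only [coeff_C_mul, comp_C_mul_X_coeff, rp_coeff, hco] at this
    have h2 : ((((R.n : ℤ) - 1) * 2 ^ k * (distMat R.dist).charpoly.coeff k : ℤ) : ℝ)
      = (((distMat R.dist).charpoly.coeff 0 * R.P.coeff k : ℤ) : ℝ) := by
      push_cast
      rw [← this]; ring
    exact_mod_cast h2

/-- `R` represents the metric `D` with root `v`. -/
def Rep {V : Type} (D : V → V → ℕ) (v : V) (R : RT) : Prop :=
  ∃ φ : V ≃ R.V, φ v = R.root ∧ ∀ x y, D x y = R.dist (φ x) (φ y)

theorem Rep.charpoly {V : Type} [Fintype V] [DecidableEq V] {D : V → V → ℕ} {v : V} {R : RT}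
    (h : Rep D v R) : (distMat D).charpoly = (distMat R.dist).charpoly := by
  obtain ⟨φ, _, hφ⟩ := h
  rw [← Matrix.charpoly_reindex φ (distMat D)]
  congr 1
  ext i j
  simp [distMat, hφ]

theorem Rep.card {V : Type} [Fintype V] {D : V → V → ℕ} {v : V} {R : RT}
    (h : Rep D v R) : R.n = Fintype.card V := by
  obtain ⟨φ, _, _⟩ := h
  rw [Fintype.card_congr φ, R.card]

theorem Rep.P_eq {V : Type} [Fintype V] [DecidableEq V] {D : V → V → ℕ} {v v' : V} {R R' : RT}
    (h : Rep D v R) (h' : Rep D v' R') (hn : 2 ≤ Fintype.card V) : R.P = R'.P := by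
  have hc := h.card
  have hc' := h'.card
  obtain ⟨h0, h1⟩ := R.link (by omega)
  obtain ⟨h0', h1'⟩ := R'.link (by omega)
  rw [← h.charpoly] at h0 h1
  rw [← h'.charpoly] at h0' h1'
  ext k
  have e1 := h1 k
  have e2 := h1' k
  rw [hc] at e1
  rw [hc', e1] at e2
  exact mul_left_cancel₀ h0 e2

/-- peak location for `P`. -/
theorem RT.peak (R : RT) (hn : 3 ≤ R.n) (hTH : TH R.n R.P) :
    ∃ k : ℕ, k ≤ R.n - 2 ∧ (∀ j ≤ R.n - 2, R.P.coeff j ≤ R.P.coeff k) ∧ R.n / 2 ≤ k ∧
      k ≤ ⌈(1 - 1 / Real.sqrt 5) * (R.n : ℝ)⌉₊ := by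
  set K := ⌈(1 - 1 / Real.sqrt 5) * (R.n : ℝ)⌉₊ with hKdef
  obtain ⟨μ, c, hμ, hc, ha, hP⟩ := R.spectral
  obtain ⟨hmean, hapos⟩ := mean_le R
  have hs5 : (1 : ℝ) / Real.sqrt 5 < 0.4473 := kap_hi
  have hKle : (1 - 1 / Real.sqrt 5) * (R.n : ℝ) ≤ K := Nat.le_ceil _
  have hn3 : (3 : ℝ) ≤ R.n := by exact_mod_cast hn
  have hK1 : 1 ≤ K := by
    have : (0 : ℝ) < K := by nlinarith
    exact_mod_cast this
  have hKn2 : R.n / 2 ≤ K := by
    have h1 : ((R.n / 2 : ℕ) : ℝ) ≤ (R.n : ℝ) / 2 := Nat.cast_div_le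
    have : ((R.n / 2 : ℕ) : ℝ) ≤ K := by nlinarith
    exact_mod_cast this
  -- mean bound for the eigenvalues
  have hsum : ∑ i ∈ Finset.univ, μ i / (1 + μ i) ≤ K := by
    have h1 := pp_mean μ hμ Finset.univ
    have h2 := pp_eval_one_pos μ hμ Finset.univ
    rw [← ha] at h1 h2
    have e1 : (rp R.pol.a).eval 1 = ((R.pol.a.eval 1 : ℤ) : ℝ) := by
      unfold rp; rw [Polynomial.eval_one_map]; rfl
    have e2 : (derivative (rp R.pol.a)).eval 1 = (((derivative R.pol.a).eval 1 : ℤ) : ℝ) := by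
      unfold rp; rw [Polynomial.derivative_map, Polynomial.eval_one_map]; rfl
    rw [e1, e2] at h1
    rw [h1] at hmean
    have h3 := le_of_mul_le_mul_right hmean hapos
    exact h3.trans hKle
  -- decreasing
  have hdec : ∀ k, K ≤ k → k + 1 ≤ R.n - 2 → R.P.coeff (k + 1) ≤ R.P.coeff k := by
    intro k hk hk2
    have hm : 0 < (pp μ Finset.univ).coeff k := by
      rw [← ha, rp_coeff]
      have h1 := (facts R).hab.nonneg k
      rw [coeff_sub] at h1
      have h2 := b_coeff_ge R k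
      have h3 : 0 < (R.n - 1).choose k := Nat.choose_pos (by omega)
      have h4 : (0 : ℤ) < R.pol.a.coeff k := by
        have : (0 : ℤ) < ((R.n - 1).choose k : ℤ) := by exact_mod_cast h3
        linarith
      exact_mod_cast h4
    have hp : 0 ≤ (rp R.P).coeff k := by
      rw [rp_coeff]; exact_mod_cast hTH.nonneg k (by omega)
    have := upper_half μ hμ c hc Finset.univ K hK1 hsum ((R.n : ℝ) - 1) (rp R.P) hP k hk hm hp
    rw [rp_coeff, rp_coeff] at this
    exact_mod_cast this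
  have hdec' : ∀ k, K ≤ k → k ≤ R.n - 2 → R.P.coeff k ≤ R.P.coeff K := by
    intro k hk
    induction k, hk using Nat.le_induction with
    | base => intro _; exact le_rfl
    | succ k hk ih =>
      intro h2
      exact (hdec k hk h2).trans (ih (by omega))
  -- lower half
  have hlow : ∀ j, j ≤ R.n - 2 → ∃ j', R.n / 2 ≤ j' ∧ j' ≤ R.n - 2 ∧
      R.P.coeff j ≤ R.P.coeff j' := by
    intro j hj
    by_cases hjm : R.n / 2 ≤ j
    · exact ⟨j, hjm, hj, le_rfl⟩
    · rcases Nat.eq_zero_or_pos j with rfl | hj0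
      · refine ⟨R.n - 2, by omega, le_rfl, ?_⟩
        rw [hTH.zero]; exact hTH.last
      · exact ⟨R.n - 1 - j, by omega, by omega, hTH.mono j _ hj0 (by omega) (by omega)⟩
  -- the maximum over the window
  set W := Finset.Icc (R.n / 2) (min K (R.n - 2)) with hW
  have hWne : W.Nonempty := by
    rw [hW, Finset.nonempty_Icc]
    exact le_min hKn2 (by omega)
  obtain ⟨k, hkW, hkmax⟩ := Finset.exists_max_image W (fun k => R.P.coeff k) hWne
  rw [hW, Finset.mem_Icc] at hkW
  refine ⟨k, hkW.2.trans (min_le_right _ _), ?_, hkW.1, hkW.2.trans (min_le_left _ _)⟩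
  intro j hj
  obtain ⟨j', h1, h2, h3⟩ := hlow j hj
  refine h3.trans ?_
  by_cases hjK : j' ≤ K
  · exact hkmax j' (by rw [hW, Finset.mem_Icc]; exact ⟨h1, le_min hjK h2⟩)
  · push Not at hjK
    refine (hdec' j' hjK.le h2).trans ?_
    exact hkmax K (by rw [hW, Finset.mem_Icc]; exact ⟨hKn2, le_min le_rfl (by omega)⟩)

end Pool.Agent.MP_5d54aa_co
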