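import Pool.Agent.Work.MP_5d54aa_co.RT

set_option autoImplicit false

open Polynomial Matrix

namespace Pool.Agent.MP_5d54aa_co

theorem det_rank_one {m : Type} [Fintype m] [DecidableEq m] (A : Matrix m m ℝ) (x u v : m → ℝ)
    (h : A *ᵥ x = u) : (A + vecMulVec u v).det = A.det * (1 + v ⬝ᵥ x) := by
  have e : A + vecMulVec u v = A * (1 + vecMulVec x v) := by
    rw [mul_add, mul_one, Matrix.mul_vecMulVec, h]
  rw [e, det_mul, Matrix.vecMulVec_eq Unit, Matrix.det_one_add_replicateCol_mul_replicateRow]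

/-- vertices -/
def RT.V : RT → Type
  | RT.single => Unit
  | RT.graft T S => T.V ⊕ S.V

instance RT.instFintypeV : (R : RT) → Fintype R.V
  | RT.single => inferInstanceAs (Fintype Unit)
  | RT.graft T S =>
    letI := RT.instFintypeV T
    letI := RT.instFintypeV S
    inferInstanceAs (Fintype (T.V ⊕ S.V))

instance RT.instDecEqV : (R : RT) → DecidableEq R.V
  | RT.single => inferInstanceAs (DecidableEq Unit)
  | RT.graft T S =>
    letI := RT.instDecEqV T
    letI := RT.instDecEqV S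
    inferInstanceAs (DecidableEq (T.V ⊕ S.V))

def RT.root : (R : RT) → R.V
  | RT.single => ()
  | RT.graft T _ => Sum.inl T.root

def RT.dist : (R : RT) → R.V → R.V → ℕ
  | RT.single => fun _ _ => 0
  | RT.graft T S => Sum.elim
      (fun x => Sum.elim (fun y => T.dist x y) (fun y => T.dist T.root x + 1 + S.dist S.root y))
      (fun x => Sum.elim (fun y => T.dist T.root y + 1 + S.dist S.root x) (fun y => S.dist x y))

theorem RT.card (R : RT) : Fintype.card R.V = R.n := by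
  induction R with
  | single => rfl
  | graft T S ihT ihS =>
    change Fintype.card (T.V ⊕ S.V) = T.n + S.n
    rw [Fintype.card_sum, ihT, ihS]

theorem RT.dist_symm (R : RT) : ∀ x y, R.dist x y = R.dist y x := by
  induction R with
  | single => intro x y; rfl
  | graft T S ihT ihS =>
    rintro (x | x) (y | y)
    · exact ihT x y
    · rfl
    · rfl
    · exact ihS x y

theorem RT.dist_self (R : RT) : ∀ x, R.dist x x = 0 := by
  induction R with
  | single => intro x; rfl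
  | graft T S ihT ihS =>
    rintro (x | x)
    · exact ihT x
    · exact ihS x

/-- indicator of the root -/
noncomputable def RT.e (R : RT) : R.V → ℝ := Pi.single R.root 1

noncomputable def RT.w (T S : RT) : T.V ⊕ S.V → ℝ := Sum.elim T.e (-S.e)

noncomputable def RT.L : (R : RT) → Matrix R.V R.V ℝ
  | RT.single => 0
  | RT.graft T S =>
    (fromBlocks T.L 0 0 S.L + vecMulVec (RT.w T S) (RT.w T S) : Matrix (T.V ⊕ S.V) (T.V ⊕ S.V) ℝ)

noncomputable def RT.del : (R : RT) → R.V → ℝ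
  | RT.single => fun _ => 2
  | RT.graft T S => Sum.elim (T.del - T.e) (S.del - S.e)

noncomputable def RT.D (R : RT) : Matrix R.V R.V ℝ := Matrix.of fun x y => (R.dist x y : ℝ)

theorem RT.e_graft (T S : RT) : (RT.graft T S).e = (Sum.elim T.e 0 : T.V ⊕ S.V → ℝ) := by
  unfold RT.e
  funext x
  rcases x with x | x
  · change (Pi.single (Sum.inl T.root) (1 : ℝ) : T.V ⊕ S.V → ℝ) (Sum.inl x) = _
    simp only [Sum.elim_inl]
    by_cases h : x = T.root
    · subst h; simp
    · rw [Pi.single_eq_of_ne h, Pi.single_eq_of_ne (by simpa using h)]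
  · change (Pi.single (Sum.inl T.root) (1 : ℝ) : T.V ⊕ S.V → ℝ) (Sum.inr x) = _
    simp

theorem vecMulVec_mulVec' {m : Type} [Fintype m] (u v x : m → ℝ) :
    vecMulVec u v *ᵥ x = (v ⬝ᵥ x) • u := by
  funext i
  simp only [Matrix.mulVec, dotProduct, vecMulVec_apply, Pi.smul_apply, smul_eq_mul,
    Finset.sum_mul]
  refine Finset.sum_congr rfl ?_
  intro j _; ring

theorem upd {m : Type} [Fintype m] (M0 : Matrix m m ℝ) (w xw x0 z : m → ℝ) (y : ℝ)
    (h1 : M0 *ᵥ xw = w) (h2 : M0 *ᵥ x0 = z) (hd : 1 + y * (w ⬝ᵥ xw) ≠ 0) :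
    (M0 + vecMulVec (y • w) w) *ᵥ (x0 - (y * (w ⬝ᵥ x0) / (1 + y * (w ⬝ᵥ xw))) • xw) = z := by
  rw [add_mulVec, vecMulVec_mulVec', mulVec_sub, mulVec_smul, h1, h2, dotProduct_sub,
    dotProduct_smul]
  funext i
  simp only [Pi.add_apply, Pi.sub_apply, Pi.smul_apply, smul_eq_mul]
  field_simp
  ring

/-- abstract data -/
structure Dat {m : Type} [Fintype m] [DecidableEq m] (M : Matrix m m ℝ) (e δ : m → ℝ)
    (a β lam kap : ℝ) : Prop where
  ex : ∃ f g : m → ℝ, M *ᵥ f = e ∧ M *ᵥ g = δ ∧ e ⬝ᵥ f = β ∧ e ⬝ᵥ g = lam ∧ δ ⬝ᵥ f = lam ∧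
    δ ⬝ᵥ g = kap
  det : M.det = a

theorem Dat.graft {m n : Type} [Fintype m] [DecidableEq m] [Fintype n] [DecidableEq n]
    {M : Matrix m m ℝ} {e δ : m → ℝ} {a β lam kap : ℝ} (h : Dat M e δ a β lam kap)
    {M' : Matrix n n ℝ} {e' δ' : n → ℝ} {a' β' lam' kap' : ℝ} (h' : Dat M' e' δ' a' β' lam' kap')
    (y : ℝ) (hd : 1 + y * (β + β') ≠ 0) :
    Dat (fromBlocks M 0 0 M' + vecMulVec (y • (Sum.elim e (-e'))) (Sum.elim e (-e')))
      (Sum.elim e 0) (Sum.elim (δ - e) (δ' - e')) (a * a' * (1 + y * (β + β')))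
      (β - y * β / (1 + y * (β + β')) * β)
      ((lam - β) - y * β / (1 + y * (β + β')) * ((lam - β) - (lam' - β')))
      ((kap - 2 * lam + β) + (kap' - 2 * lam' + β')
        - y * ((lam - β) - (lam' - β')) / (1 + y * (β + β')) * ((lam - β) - (lam' - β'))) := by
  obtain ⟨⟨f, g, h1, h2, h3, h4, h5, h6⟩, hdet⟩ := h
  obtain ⟨⟨f', g', h1', h2', h3', h4', h5', h6'⟩, hdet'⟩ := h'
  have hxw : fromBlocks M 0 0 M' *ᵥ (Sum.elim f (-f')) = Sum.elim e (-e') := by
    rw [fromBlocks_mulVec]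
    simp only [Sum.elim_comp_inl, Sum.elim_comp_inr, zero_mulVec, add_zero, zero_add, h1,
      mulVec_neg, h1', neg_zero]
  have hf0 : fromBlocks M 0 0 M' *ᵥ (Sum.elim f 0) = Sum.elim e 0 := by
    rw [fromBlocks_mulVec]
    simp only [Sum.elim_comp_inl, Sum.elim_comp_inr, zero_mulVec, add_zero, zero_add, h1,
      mulVec_zero]
  have hg0 : fromBlocks M 0 0 M' *ᵥ (Sum.elim (g - f) (g' - f')) = Sum.elim (δ - e) (δ' - e') := by
    rw [fromBlocks_mulVec]
    simp only [Sum.elim_comp_inl, Sum.elim_comp_inr, zero_mulVec, add_zero, zero_add, h1, h2,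
      h1', h2', mulVec_sub, sub_self]
  have d1 : (Sum.elim e (-e') : m ⊕ n → ℝ) ⬝ᵥ (Sum.elim f (-f')) = β + β' := by
    rw [sumElim_dotProduct_sumElim, h3, neg_dotProduct_neg, h3']
  have d2 : (Sum.elim e (-e') : m ⊕ n → ℝ) ⬝ᵥ (Sum.elim f 0) = β := by
    rw [sumElim_dotProduct_sumElim, h3, dotProduct_zero, add_zero]
  have d3 : (Sum.elim e (-e') : m ⊕ n → ℝ) ⬝ᵥ (Sum.elim (g - f) (g' - f'))
      = (lam - β) - (lam' - β') := by
    rw [sumElim_dotProduct_sumElim, dotProduct_sub, neg_dotProduct, dotProduct_sub, h3, h4, h3',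
      h4']
    ring
  have d4 : (Sum.elim (δ - e) (δ' - e') : m ⊕ n → ℝ) ⬝ᵥ (Sum.elim f (-f'))
      = (lam - β) - (lam' - β') := by
    rw [sumElim_dotProduct_sumElim, sub_dotProduct, dotProduct_neg, sub_dotProduct, h3, h5, h3',
      h5']
    ring
  have d5 : (Sum.elim (δ - e) (δ' - e') : m ⊕ n → ℝ) ⬝ᵥ (Sum.elim f 0) = lam - β := by
    rw [sumElim_dotProduct_sumElim, sub_dotProduct, h3, h5, dotProduct_zero, add_zero]
  have d6 : (Sum.elim (δ - e) (δ' - e') : m ⊕ n → ℝ) ⬝ᵥ (Sum.elim (g - f) (g' - f'))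
      = (kap - 2 * lam + β) + (kap' - 2 * lam' + β') := by
    rw [sumElim_dotProduct_sumElim, sub_dotProduct, sub_dotProduct, dotProduct_sub,
      dotProduct_sub, dotProduct_sub, dotProduct_sub, h3, h4, h5, h6, h3', h4', h5', h6']
    ring
  have d7 : (Sum.elim e 0 : m ⊕ n → ℝ) ⬝ᵥ (Sum.elim f (-f')) = β := by
    rw [sumElim_dotProduct_sumElim, h3, zero_dotProduct, add_zero]
  have d8 : (Sum.elim e 0 : m ⊕ n → ℝ) ⬝ᵥ (Sum.elim f 0) = β := by
    rw [sumElim_dotProduct_sumElim, h3, zero_dotProduct, add_zero]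
  have d9 : (Sum.elim e 0 : m ⊕ n → ℝ) ⬝ᵥ (Sum.elim (g - f) (g' - f')) = lam - β := by
    rw [sumElim_dotProduct_sumElim, dotProduct_sub, h3, h4, zero_dotProduct, add_zero]
  have hd' : 1 + y * ((Sum.elim e (-e') : m ⊕ n → ℝ) ⬝ᵥ (Sum.elim f (-f'))) ≠ 0 := by
    rw [d1]; exact hd
  have u1 := upd (fromBlocks M 0 0 M') (Sum.elim e (-e')) (Sum.elim f (-f')) (Sum.elim f 0)
    (Sum.elim e 0) y hxw hf0 hd'
  have u2 := upd (fromBlocks M 0 0 M') (Sum.elim e (-e')) (Sum.elim f (-f'))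
    (Sum.elim (g - f) (g' - f')) (Sum.elim (δ - e) (δ' - e')) y hxw hg0 hd'
  rw [d1, d2] at u1
  rw [d1, d3] at u2
  refine ⟨⟨_, _, u1, u2, ?_, ?_, ?_, ?_⟩, ?_⟩
  · rw [dotProduct_sub, dotProduct_smul, d7, d8, smul_eq_mul]
  · rw [dotProduct_sub, dotProduct_smul, d7, d9, smul_eq_mul]; ring
  · rw [dotProduct_sub, dotProduct_smul, d4, d5, smul_eq_mul]
  · rw [dotProduct_sub, dotProduct_smul, d4, d6, smul_eq_mul]
  · have hxw' : fromBlocks M 0 0 M' *ᵥ (y • Sum.elim f (-f')) = y • Sum.elim e (-e') := by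
      rw [mulVec_smul, hxw]
    rw [det_rank_one _ _ _ _ hxw', det_fromBlocks_zero₂₁, hdet, hdet', dotProduct_smul, d1,
      smul_eq_mul]

/-- evaluation of an integer polynomial at a real number -/
noncomputable def ev (y : ℝ) (p : ℤ[X]) : ℝ := Polynomial.aeval y p

theorem ev_add (y : ℝ) (p q : ℤ[X]) : ev y (p + q) = ev y p + ev y q := by simp [ev]
theorem ev_sub (y : ℝ) (p q : ℤ[X]) : ev y (p - q) = ev y p - ev y q := by simp [ev]
theorem ev_mul (y : ℝ) (p q : ℤ[X]) : ev y (p * q) = ev y p * ev y q := by simp [ev]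
theorem ev_X (y : ℝ) : ev y X = y := by simp [ev]
theorem ev_one (y : ℝ) : ev y 1 = 1 := by simp [ev]
theorem ev_two (y : ℝ) : ev y 2 = 2 := by
  have : (2 : ℤ[X]) = 1 + 1 := by norm_num
  rw [this, ev_add, ev_one]; norm_num
theorem ev_four (y : ℝ) : ev y 4 = 4 := by
  have : (4 : ℤ[X]) = 2 + 2 := by norm_num
  rw [this, ev_add, ev_two]; norm_num
theorem ev_zero (y : ℝ) : ev y 0 = 0 := by simp [ev]

theorem ev_nonneg {c : ℤ} {p : ℤ[X]} (h : Cone c p) {y : ℝ} (hy : 0 ≤ y) : 0 ≤ ev y p := by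
  induction h with
  | zero => rw [ev_zero]
  | mono J s _ =>
    simp only [ev, map_mul, map_pow, map_add, map_one, aeval_X]
    positivity
  | add f g _ _ ih ih' => rw [ev_add]; exact add_nonneg ih ih'

theorem ev_b_pos (R : RT) {y : ℝ} (hy : 0 ≤ y) : 0 < ev y R.pol.b := by
  have h := ev_nonneg (b_ge R) hy
  rw [ev_sub] at h
  have h2 : ev y ((1 + X) ^ (R.n - 1)) = (1 + y) ^ (R.n - 1) := by simp [ev]
  rw [h2] at h
  have : 0 < (1 + y) ^ (R.n - 1) := by positivity
  linarith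

theorem ev_a_pos (R : RT) {y : ℝ} (hy : 0 ≤ y) : 0 < ev y R.pol.a := by
  have h := ev_nonneg (facts R).hab hy
  rw [ev_sub] at h
  have := ev_b_pos R hy
  linarith

/-- `b 𝓡 = a Q - X Λ²` -/
theorem bR_eq (R : RT) : R.pol.b * R.pol.R = R.pol.a * R.pol.Q - X * R.pol.L ^ 2 := by
  induction R with
  | single => simp [RT.pol]
  | graft T S ihT ihS =>
    simp only [RT.pol, Pol.comb]
    linear_combination (S.pol.a + X * S.pol.b) ^ 2 * ihT + X ^ 2 * T.pol.b ^ 2 * ihS

theorem gden (y aT bT aS bS G : ℝ) (haT : 0 < aT) (haS : 0 < aS)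
    (hG : G = aT * (aS + y * bS) + y * bT * aS) :
    1 + y * (bT / aT + bS / aS) = G / (aT * aS) := by
  rw [hG]; field_simp; ring

theorem g2 (y aT bT aS bS G : ℝ) (haT : 0 < aT) (haS : 0 < aS) (hG0 : 0 < G)
    (hG : G = aT * (aS + y * bS) + y * bT * aS) :
    bT / aT - y * (bT / aT) / (1 + y * (bT / aT + bS / aS)) * (bT / aT)
      = bT * (aS + y * bS) / G := by
  rw [gden y aT bT aS bS G haT haS hG]
  field_simp
  rw [hG]; ring

theorem g3 (y aT bT LT aS bS LS G : ℝ) (haT : 0 < aT) (haS : 0 < aS) (hG0 : 0 < G)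
    (hG : G = aT * (aS + y * bS) + y * bT * aS) :
    ((2 * bT - LT) / aT - bT / aT) - y * (bT / aT) / (1 + y * (bT / aT + bS / aS))
        * (((2 * bT - LT) / aT - bT / aT) - ((2 * bS - LS) / aS - bS / aS))
      = (2 * (bT * (aS + y * bS)) - (LT * (aS + y * bS) + bT * (aS + y * LS))) / G := by
  rw [gden y aT bT aS bS G haT haS hG]
  field_simp
  rw [hG]; ring

theorem g4 (y aT bT LT QT RT aS bS LS QS RS G nT nS : ℝ) (hy : 0 < y) (haT : 0 < aT)
    (haS : 0 < aS) (hG0 : 0 < G)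
    (hG : G = aT * (aS + y * bS) + y * bT * aS)
    (hT : bT * RT = aT * QT - y * (LT * LT)) (hS : bS * RS = aS * QS - y * (LS * LS)) :
    ((((nT - 1) * aT - (RT + 4 * y * LT - 4 * y * bT)) / (y * aT))
        - 2 * ((2 * bT - LT) / aT) + bT / aT)
      + ((((nS - 1) * aS - (RS + 4 * y * LS - 4 * y * bS)) / (y * aS))
        - 2 * ((2 * bS - LS) / aS) + bS / aS)
      - y * (((2 * bT - LT) / aT - bT / aT) - ((2 * bS - LS) / aS - bS / aS))
          / (1 + y * (bT / aT + bS / aS))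
        * (((2 * bT - LT) / aT - bT / aT) - ((2 * bS - LS) / aS - bS / aS))
      = ((nT + nS - 1) * G - ((RT * (aS + y * bS) + bT * (y * RS + (RS + aS + y * QS + 2 * y * LS))
    + (aT - bT) * (RS + aS + y * QS + 2 * y * LS) + y * aS * QT
    - 2 * y * LT * (aS + y * LS)) + 4 * y * (LT * (aS + y * bS) + bT * (aS + y * LS))
      - 4 * y * (bT * (aS + y * bS)))) / (y * G) := by
  rw [gden y aT bT aS bS G haT haS hG]
  field_simp
  rw [hG]
  linear_combination (-(y * aS ^ 2)) * hT + (-(y * aT ^ 2)) * hS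

theorem dat_single (y : ℝ) :
    Dat (1 + y • RT.single.L) RT.single.e RT.single.del 1 1 2 4 := by
  have hL : RT.single.L = 0 := rfl
  rw [hL, smul_zero, add_zero]
  have he : RT.single.e = fun _ => (1 : ℝ) := by
    funext x
    have : x = RT.single.root := rfl
    rw [this]; unfold RT.e; simp
  have hd : RT.single.del = fun _ => (2 : ℝ) := rfl
  rw [he, hd]
  refine ⟨⟨fun _ => 1, fun _ => 2, by rw [one_mulVec], by rw [one_mulVec], ?_, ?_, ?_, ?_⟩, by simp⟩
  all_goals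
    change (∑ x : Unit, _) = _
    simp
  all_goals norm_num

theorem RT.dat (R : RT) (y : ℝ) (hy : 0 < y) :
    Dat (1 + y • R.L) R.e R.del (ev y R.pol.a) (ev y R.pol.b / ev y R.pol.a)
      ((2 * ev y R.pol.b - ev y R.pol.L) / ev y R.pol.a)
      (((R.n - 1) * ev y R.pol.a - ev y R.P) / (y * ev y R.pol.a)) := by
  induction R with
  | single =>
    have := dat_single y
    convert this using 1
    · simp [RT.pol, ev_one]
    · simp [RT.pol, ev_one]
    · simp [RT.pol, ev_one, ev_zero]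
    · simp only [RT.pol, RT.P, RT.n, ev_add, ev_sub, ev_mul, ev_four, ev_one, ev_zero, ev_X]
      field_simp
      norm_num
  | graft T S ihT ihS =>
    have haT := ev_a_pos T hy.le
    have hbT := ev_b_pos T hy.le
    have haS := ev_a_pos S hy.le
    have hbS := ev_b_pos S hy.le
    have hd : 1 + y * (ev y T.pol.b / ev y T.pol.a + ev y S.pol.b / ev y S.pol.a) ≠ 0 := by
      positivity
    have h := Dat.graft ihT ihS y hd
    have hT := congrArg (ev y) (bR_eq T)
    have hS := congrArg (ev y) (bR_eq S)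
    simp only [ev_mul, ev_sub, ev_X, pow_two] at hT hS
    have eM : (1 + y • (RT.graft T S).L : Matrix (RT.graft T S).V (RT.graft T S).V ℝ)
        = (fromBlocks (1 + y • T.L) 0 0 (1 + y • S.L)
          + vecMulVec (y • (Sum.elim T.e (-S.e))) (Sum.elim T.e (-S.e)) :
            Matrix (T.V ⊕ S.V) (T.V ⊕ S.V) ℝ) := by
      change ((1 : Matrix (T.V ⊕ S.V) (T.V ⊕ S.V) ℝ)
        + y • (fromBlocks T.L 0 0 S.L + vecMulVec (RT.w T S) (RT.w T S))) = _
      rw [smul_add, ← add_assoc, ← fromBlocks_one, fromBlocks_smul, fromBlocks_add]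
      simp only [smul_zero, add_zero]
      rw [← smul_vecMulVec]
      rfl
    rw [eM]
    have eG : ev y (RT.graft T S).pol.a
        = ev y T.pol.a * (ev y S.pol.a + y * ev y S.pol.b) + y * ev y T.pol.b * ev y S.pol.a := by
      simp only [RT.pol, Pol.comb, ev_add, ev_mul, ev_X]
    have hG0 := ev_a_pos (RT.graft T S) hy.le
    have hdelta : (RT.graft T S).del = (Sum.elim (T.del - T.e) (S.del - S.e) :
      T.V ⊕ S.V → ℝ) := rfl
    rw [RT.e_graft, hdelta]
    rw [g2 _ _ _ _ _ _ haT haS hG0 eG, g3 _ _ _ _ _ _ _ _ haT haS hG0 eG] at h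
    simp only [RT.P, ev_add, ev_sub, ev_mul, ev_four, ev_X] at h
    rw [g4 _ _ _ _ _ _ _ _ _ _ _ _ _ _ hy haT haS hG0 eG hT hS,
      gden _ _ _ _ _ _ haT haS eG] at h
    have e1 : ev y T.pol.a * ev y S.pol.a * (ev y (RT.graft T S).pol.a
        / (ev y T.pol.a * ev y S.pol.a)) = ev y (RT.graft T S).pol.a := by
      field_simp
    rw [e1] at h
    have e2 : ev y (RT.graft T S).pol.b
        = ev y T.pol.b * (ev y S.pol.a + y * ev y S.pol.b) := by
      simp only [RT.pol, Pol.comb, ev_add, ev_mul, ev_X]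
    have e3 : ev y (RT.graft T S).pol.L
        = (ev y T.pol.L * (ev y S.pol.a + y * ev y S.pol.b)
          + ev y T.pol.b * (ev y S.pol.a + y * ev y S.pol.L)) := by
      simp only [RT.pol, Pol.comb, ev_add, ev_mul, ev_X]
    have e4 : ev y (RT.graft T S).pol.R
        = (ev y T.pol.R * (ev y S.pol.a + y * ev y S.pol.b) + ev y T.pol.b * (y * ev y S.pol.R
          + (ev y S.pol.R + ev y S.pol.a + y * ev y S.pol.Q + 2 * y * ev y S.pol.L))
          + (ev y T.pol.a - ev y T.pol.b)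
            * (ev y S.pol.R + ev y S.pol.a + y * ev y S.pol.Q + 2 * y * ev y S.pol.L)
          + y * ev y S.pol.a * ev y T.pol.Q
          - 2 * y * ev y T.pol.L * (ev y S.pol.a + y * ev y S.pol.L)) := by
      simp only [RT.pol, Pol.comb, ev_add, ev_mul, ev_X, ev_sub, ev_two]
    have e5 : (((RT.graft T S).n : ℕ) : ℝ) = T.n + S.n := by
      simp only [RT.n]; push_cast; ring
    rw [← e2, ← e3, ← e4, ← e5] at h
    simp only [RT.P, ev_add, ev_sub, ev_mul, ev_four, ev_X]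
    exact h

/-- Evaluate the quadratic relation between `D` and `L`. -/
theorem RT.del_sum (R : RT) : ∑ x, R.del x = 2 := by
  induction R with
  | single => change (∑ x : Unit, (2 : ℝ)) = 2; simp
  | graft T S ihT ihS =>
    change (∑ x : T.V ⊕ S.V, (Sum.elim (T.del - T.e) (S.del - S.e) : T.V ⊕ S.V → ℝ) x) = 2
    rw [Fintype.sum_sum_type]
    simp only [Sum.elim_inl, Sum.elim_inr, Pi.sub_apply, Finset.sum_sub_distrib, ihT, ihS]
    simp only [RT.e, Finset.sum_pi_single', Finset.mem_univ, if_true]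
    norm_num

end Pool.Agent.MP_5d54aa_co
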