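import Pool.Agent.Work.MP_5d54aa_co.Mat

set_option autoImplicit false

open Polynomial Matrix

namespace Pool.Agent.MP_5d54aa_co

theorem RT.D_graft_inl (T S : RT) (z : T.V ⊕ S.V → ℝ) (x : T.V) :
    ((RT.graft T S).D *ᵥ z) (Sum.inl x)
      = (T.D *ᵥ (z ∘ Sum.inl)) x + (T.dist T.root x : ℝ) * ∑ y, z (Sum.inr y)
        + ∑ y, z (Sum.inr y) + (S.D *ᵥ (z ∘ Sum.inr)) S.root := by
  change (∑ y : T.V ⊕ S.V, ((RT.graft T S).dist (Sum.inl x) y : ℝ) * z y) = _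
  rw [Fintype.sum_sum_type]
  have h1 : ∀ y : S.V, (((RT.graft T S).dist (Sum.inl x) (Sum.inr y) : ℕ) : ℝ) * z (Sum.inr y)
      = (T.dist T.root x : ℝ) * z (Sum.inr y) + z (Sum.inr y)
        + (S.dist S.root y : ℝ) * z (Sum.inr y) := by
    intro y
    change ((T.dist T.root x + 1 + S.dist S.root y : ℕ) : ℝ) * z (Sum.inr y) = _
    push_cast; ring
  rw [Finset.sum_congr rfl (fun y _ => h1 y), Finset.sum_add_distrib, Finset.sum_add_distrib,
    ← Finset.mul_sum]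
  change (∑ y, (T.dist x y : ℝ) * z (Sum.inl y)) + _ = (∑ y, (T.dist x y : ℝ) * z (Sum.inl y))
    + _ + _ + ∑ y, (S.dist S.root y : ℝ) * z (Sum.inr y)
  ring

theorem RT.D_graft_inr (T S : RT) (z : T.V ⊕ S.V → ℝ) (x : S.V) :
    ((RT.graft T S).D *ᵥ z) (Sum.inr x)
      = (S.D *ᵥ (z ∘ Sum.inr)) x + (S.dist S.root x : ℝ) * ∑ y, z (Sum.inl y)
        + ∑ y, z (Sum.inl y) + (T.D *ᵥ (z ∘ Sum.inl)) T.root := by
  change (∑ y : T.V ⊕ S.V, ((RT.graft T S).dist (Sum.inr x) y : ℝ) * z y) = _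
  rw [Fintype.sum_sum_type]
  have h1 : ∀ y : T.V, (((RT.graft T S).dist (Sum.inr x) (Sum.inl y) : ℕ) : ℝ) * z (Sum.inl y)
      = (S.dist S.root x : ℝ) * z (Sum.inl y) + z (Sum.inl y)
        + (T.dist T.root y : ℝ) * z (Sum.inl y) := by
    intro y
    change ((T.dist T.root y + 1 + S.dist S.root x : ℕ) : ℝ) * z (Sum.inl y) = _
    push_cast; ring
  rw [Finset.sum_congr rfl (fun y _ => h1 y), Finset.sum_add_distrib, Finset.sum_add_distrib,
    ← Finset.mul_sum]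
  change _ + (∑ y, (S.dist x y : ℝ) * z (Sum.inr y)) = (∑ y, (S.dist x y : ℝ) * z (Sum.inr y))
    + _ + _ + ∑ y, (T.dist T.root y : ℝ) * z (Sum.inl y)
  ring

theorem RT.e_dot (R : RT) (z : R.V → ℝ) : R.e ⬝ᵥ z = z R.root := by
  unfold RT.e; rw [single_dotProduct, one_mul]

theorem RT.dot_e (R : RT) (z : R.V → ℝ) : z ⬝ᵥ R.e = z R.root := by
  rw [dotProduct_comm, RT.e_dot]

theorem RT.e_sum (R : RT) : ∑ x, R.e x = 1 := by
  simp only [RT.e, Finset.sum_pi_single', Finset.mem_univ, if_true]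

theorem RT.w_dot (T S : RT) (z : T.V ⊕ S.V → ℝ) :
    RT.w T S ⬝ᵥ z = z (Sum.inl T.root) - z (Sum.inr S.root) := by
  unfold RT.w
  have : z = Sum.elim (z ∘ Sum.inl) (z ∘ Sum.inr) := (Sum.elim_comp_inl_inr z).symm
  rw [this, sumElim_dotProduct_sumElim, neg_dotProduct, RT.e_dot, RT.e_dot]
  simp only [Function.comp, Sum.elim_inl, Sum.elim_inr]
  ring

theorem RT.L_graft_inl (T S : RT) (z : T.V ⊕ S.V → ℝ) (x : T.V) :
    ((RT.graft T S).L *ᵥ z) (Sum.inl x)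
      = (T.L *ᵥ (z ∘ Sum.inl)) x + (z (Sum.inl T.root) - z (Sum.inr S.root)) * T.e x := by
  change ((fromBlocks T.L 0 0 S.L + vecMulVec (RT.w T S) (RT.w T S) :
    Matrix (T.V ⊕ S.V) (T.V ⊕ S.V) ℝ) *ᵥ z) (Sum.inl x) = _
  rw [add_mulVec, vecMulVec_mulVec', fromBlocks_mulVec, Pi.add_apply, Pi.smul_apply, RT.w_dot]
  simp only [Sum.elim_inl, zero_mulVec, add_zero, smul_eq_mul, RT.w]

theorem RT.L_graft_inr (T S : RT) (z : T.V ⊕ S.V → ℝ) (x : S.V) :
    ((RT.graft T S).L *ᵥ z) (Sum.inr x)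
      = (S.L *ᵥ (z ∘ Sum.inr)) x - (z (Sum.inl T.root) - z (Sum.inr S.root)) * S.e x := by
  change ((fromBlocks T.L 0 0 S.L + vecMulVec (RT.w T S) (RT.w T S) :
    Matrix (T.V ⊕ S.V) (T.V ⊕ S.V) ℝ) *ᵥ z) (Sum.inr x) = _
  rw [add_mulVec, vecMulVec_mulVec', fromBlocks_mulVec, Pi.add_apply, Pi.smul_apply, RT.w_dot]
  simp only [Sum.elim_inr, zero_mulVec, zero_add, smul_eq_mul, RT.w, Pi.neg_apply]
  ring

theorem RT.L_sum (R : RT) : ∀ z : R.V → ℝ, ∑ x, (R.L *ᵥ z) x = 0 := by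
  induction R with
  | single =>
    intro z
    have hL : RT.single.L = 0 := rfl
    rw [hL, zero_mulVec]
    exact Finset.sum_eq_zero (fun _ _ => rfl)
  | graft T S ihT ihS =>
    intro z
    change (∑ x : T.V ⊕ S.V, ((RT.graft T S).L *ᵥ z) x) = 0
    rw [Fintype.sum_sum_type]
    simp only [RT.L_graft_inl, RT.L_graft_inr, Finset.sum_add_distrib, Finset.sum_sub_distrib,
      ← Finset.mul_sum, RT.e_sum, ihT, ihS]
    ring

theorem RT.D_e (R : RT) (x : R.V) : (R.D *ᵥ R.e) x = (R.dist R.root x : ℝ) := by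
  unfold RT.e
  rw [mulVec_single_one]
  change (R.dist x R.root : ℝ) = _
  rw [RT.dist_symm]

theorem RT.D_L (R : RT) : ∀ (z : R.V → ℝ) (x : R.V),
    (R.D *ᵥ (R.L *ᵥ z)) x = R.del ⬝ᵥ z - 2 * z x := by
  induction R with
  | single =>
    intro z x
    have hL : RT.single.L = 0 := rfl
    rw [hL, zero_mulVec, mulVec_zero]
    change (0 : ℝ) = (∑ y : Unit, (2 : ℝ) * z y) - 2 * z x
    have : x = (() : Unit) := rfl
    simp [this]
  | graft T S ihT ihS =>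
    intro z
    set τ := z (Sum.inl T.root) - z (Sum.inr S.root) with hτ
    obtain ⟨v, hv⟩ : ∃ v : T.V ⊕ S.V → ℝ, v = (RT.graft T S).L *ᵥ z := ⟨_, rfl⟩
    have hl : v ∘ Sum.inl = T.L *ᵥ (z ∘ Sum.inl) + τ • T.e := by
      rw [hv]; funext x; exact RT.L_graft_inl T S z x
    have hr : v ∘ Sum.inr = S.L *ᵥ (z ∘ Sum.inr) - τ • S.e := by
      rw [hv]; funext x; exact RT.L_graft_inr T S z x
    have sl : ∑ y, v (Sum.inl y) = τ := by
      have : ∀ y, v (Sum.inl y) = (T.L *ᵥ (z ∘ Sum.inl)) y + τ * T.e y :=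
        fun y => by rw [hv]; exact RT.L_graft_inl T S z y
      rw [Finset.sum_congr rfl (fun y _ => this y), Finset.sum_add_distrib, ← Finset.mul_sum,
        RT.L_sum, RT.e_sum]
      ring
    have sr : ∑ y, v (Sum.inr y) = - τ := by
      have : ∀ y, v (Sum.inr y) = (S.L *ᵥ (z ∘ Sum.inr)) y - τ * S.e y :=
        fun y => by rw [hv]; exact RT.L_graft_inr T S z y
      rw [Finset.sum_congr rfl (fun y _ => this y), Finset.sum_sub_distrib, ← Finset.mul_sum,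
        RT.L_sum, RT.e_sum]
      ring
    have hdel : (RT.graft T S).del ⬝ᵥ z = T.del ⬝ᵥ (z ∘ Sum.inl) - z (Sum.inl T.root)
        + (S.del ⬝ᵥ (z ∘ Sum.inr) - z (Sum.inr S.root)) := by
      change (Sum.elim (T.del - T.e) (S.del - S.e) : T.V ⊕ S.V → ℝ) ⬝ᵥ z = _
      have : z = Sum.elim (z ∘ Sum.inl) (z ∘ Sum.inr) := (Sum.elim_comp_inl_inr z).symm
      conv_lhs => rw [this]
      rw [sumElim_dotProduct_sumElim, sub_dotProduct, sub_dotProduct, RT.e_dot, RT.e_dot]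
      rfl
    rw [← hv]
    rintro (x | x)
    · rw [RT.D_graft_inl, hl, hr, sr, mulVec_add, mulVec_sub, mulVec_smul, mulVec_smul,
        Pi.add_apply, Pi.sub_apply, Pi.smul_apply, Pi.smul_apply, RT.D_e, RT.D_e, ihT, ihS, hdel,
        RT.dist_self]
      simp only [Function.comp, smul_eq_mul, Nat.cast_zero]
      rw [hτ]; ring
    · rw [RT.D_graft_inr, hl, hr, sl, mulVec_add, mulVec_sub, mulVec_smul, mulVec_smul,
        Pi.add_apply, Pi.sub_apply, Pi.smul_apply, Pi.smul_apply, RT.D_e, RT.D_e, ihT, ihS, hdel,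
        RT.dist_self]
      simp only [Function.comp, smul_eq_mul, Nat.cast_zero]
      rw [hτ]; ring

theorem RT.D_del (R : RT) : ∀ (x : R.V), (R.D *ᵥ R.del) x = (R.n : ℝ) - 1 := by
  induction R with
  | single =>
    intro x
    change (∑ y : Unit, ((0 : ℕ) : ℝ) * (2 : ℝ)) = _
    simp [RT.n]
  | graft T S ihT ihS =>
    obtain ⟨v, hv⟩ : ∃ v : T.V ⊕ S.V → ℝ, v = (RT.graft T S).del := ⟨_, rfl⟩
    rw [← hv]
    have hl : v ∘ Sum.inl = T.del - T.e := by rw [hv]; rfl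
    have hr : v ∘ Sum.inr = S.del - S.e := by rw [hv]; rfl
    have sl : ∑ y, v (Sum.inl y) = 1 := by
      rw [hv]
      change ∑ y, (T.del y - T.e y) = 1
      rw [Finset.sum_sub_distrib, RT.del_sum, RT.e_sum]; norm_num
    have sr : ∑ y, v (Sum.inr y) = 1 := by
      rw [hv]
      change ∑ y, (S.del y - S.e y) = 1
      rw [Finset.sum_sub_distrib, RT.del_sum, RT.e_sum]; norm_num
    rintro (x | x)
    · rw [RT.D_graft_inl, hl, hr, sr, mulVec_sub, mulVec_sub, Pi.sub_apply, Pi.sub_apply,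
        RT.D_e, RT.D_e, ihT, ihS, RT.dist_self]
      simp only [RT.n]; push_cast; ring
    · rw [RT.D_graft_inr, hl, hr, sl, mulVec_sub, mulVec_sub, Pi.sub_apply, Pi.sub_apply,
        RT.D_e, RT.D_e, ihT, ihS, RT.dist_self]
      simp only [RT.n]; push_cast; ring

end Pool.Agent.MP_5d54aa_co
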