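import Mathlib

set_option autoImplicit false

open Polynomial Finset

namespace Pool.Agent.MP_5d54aa_co

/-- strong log-concavity -/
def SLC (A : ℕ → ℝ) : Prop :=
  (∀ k, 0 ≤ A k) ∧ ∀ j k, j ≤ k → A j * A (k + 2) ≤ A (j + 1) * A (k + 1)

theorem SLC.step {A B : ℕ → ℝ} {m : ℝ} (hA : SLC A) (hm : 0 ≤ m) (h0 : B 0 = A 0)
    (hs : ∀ k, B (k + 1) = A (k + 1) + m * A k) : SLC B := by
  obtain ⟨hn, hlc⟩ := hA
  refine ⟨?_, ?_⟩
  · intro k
    cases k with
    | zero => rw [h0]; exact hn 0
    | succ k => rw [hs]; have := hn k; have := hn (k + 1); positivity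
  · intro j k hjk
    cases j with
    | zero =>
      rw [h0, hs, hs, hs]
      have i1 := hlc 0 k (Nat.zero_le _)
      have a0 := hn 0
      have a1 := hn 1
      have ak := hn k
      have ak1 := hn (k + 1)
      have q1 : 0 ≤ m * (A (0 + 1) * A k) := by positivity
      have q2 : 0 ≤ m * m * (A 0 * A k) := by positivity
      nlinarith
    | succ j =>
      obtain ⟨k, rfl⟩ : ∃ k', k = k' + 1 := ⟨k - 1, by omega⟩
      have hjk' : j ≤ k := by omega
      rw [hs, hs, hs, hs]
      have i1 := hlc (j + 1) (k + 1) hjk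
      have i3 := hlc j k hjk'
      have i2 : A j * A (k + 1 + 2) ≤ A (j + 1 + 1) * A (k + 1) := by
        rcases Nat.lt_or_ge j k with hlt | hge
        · have s1 := hlc j (k + 1) (by omega)
          have s2 := hlc (j + 1) k (by omega)
          exact s1.trans s2
        · have : j = k := le_antisymm hjk' hge
          subst this
          have s1 := hlc j (j + 1) (by omega)
          rw [mul_comm (A (j + 1 + 1))]
          exact s1
      have i2' := mul_le_mul_of_nonneg_left i2 hm
      have i3' := mul_le_mul_of_nonneg_left i3 (mul_nonneg hm hm)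
      have e1 : k + 1 + 1 = k + 2 := rfl
      rw [e1] at *
      nlinarith

theorem SLC.zero_prop {A : ℕ → ℝ} (hA : SLC A) (h0 : A 0 = 1) {k : ℕ} (hk : A k = 0) :
    A (k + 1) = 0 := by
  obtain ⟨hn, hlc⟩ := hA
  cases k with
  | zero => rw [h0] at hk; norm_num at hk
  | succ k =>
    have := hlc 0 k (Nat.zero_le _)
    rw [h0, hk, one_mul, mul_zero] at this
    exact le_antisymm this (hn _)

theorem SLC.desc_step {A : ℕ → ℝ} (hA : SLC A) (h0 : A 0 = 1) {k : ℕ} (hk : A (k + 1) ≤ A k) :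
    A (k + 2) ≤ A (k + 1) := by
  have hn := hA.1
  rcases eq_or_lt_of_le (hn (k + 1)) with hz | hpos
  · have := hA.zero_prop h0 hz.symm
    rw [this]; exact hn _
  · have := hA.2 k k le_rfl
    have hk0 : 0 < A k := lt_of_lt_of_le hpos hk
    have h2 : A k * A (k + 2) ≤ A k * A (k + 1) := by nlinarith
    exact le_of_mul_le_mul_left h2 hk0

theorem SLC.desc {A : ℕ → ℝ} (hA : SLC A) (h0 : A 0 = 1) {K : ℕ} (hK : A (K + 1) ≤ A K) :
    ∀ k, K ≤ k → A (k + 1) ≤ A k := by
  intro k hk
  induction k, hk using Nat.le_induction with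
  | base => exact hK
  | succ k _ ih => exact hA.desc_step h0 ih

variable {ι : Type} [DecidableEq ι]

/-- `∏_{i ∈ S} (1 + μ_i X)` -/
noncomputable def pp (μ : ι → ℝ) (S : Finset ι) : ℝ[X] := ∏ i ∈ S, (1 + C (μ i) * X)

theorem pp_erase (μ : ι → ℝ) {S : Finset ι} {i : ι} (hi : i ∈ S) :
    pp μ S = (1 + C (μ i) * X) * pp μ (S.erase i) := by
  unfold pp; rw [Finset.mul_prod_erase S (fun i => (1 + C (μ i) * X : ℝ[X])) hi]

theorem coeff_lin_zero (m : ℝ) (f : ℝ[X]) : ((1 + C m * X) * f).coeff 0 = f.coeff 0 := by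
  simp [Polynomial.mul_coeff_zero]

theorem coeff_lin_succ (m : ℝ) (f : ℝ[X]) (k : ℕ) :
    ((1 + C m * X) * f).coeff (k + 1) = f.coeff (k + 1) + m * f.coeff k := by
  rw [add_mul, one_mul, coeff_add, mul_assoc, coeff_C_mul, coeff_X_mul]

theorem pp_coeff_zero (μ : ι → ℝ) (S : Finset ι) : (pp μ S).coeff 0 = 1 := by
  induction S using Finset.induction_on with
  | empty => simp [pp]
  | insert i S hi ih =>
    rw [pp_erase μ (Finset.mem_insert_self i S), Finset.erase_insert hi, coeff_lin_zero, ih]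

theorem pp_SLC (μ : ι → ℝ) (hμ : ∀ i, 0 ≤ μ i) (S : Finset ι) : SLC (fun k => (pp μ S).coeff k) := by
  induction S using Finset.induction_on with
  | empty =>
    refine ⟨fun k => ?_, fun j k hjk => ?_⟩
    · simp only [pp, Finset.prod_empty, coeff_one]; split_ifs <;> norm_num
    · simp only [pp, Finset.prod_empty, coeff_one]; simp
  | insert i S hi ih =>
    refine SLC.step (m := μ i) ih (hμ i) ?_ ?_
    · rw [pp_erase μ (Finset.mem_insert_self i S), Finset.erase_insert hi, coeff_lin_zero]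
    · intro k
      rw [pp_erase μ (Finset.mem_insert_self i S), Finset.erase_insert hi, coeff_lin_succ]

theorem pp_deriv (μ : ι → ℝ) (S : Finset ι) (k : ℕ) :
    (pp μ S).coeff (k + 1) * (k + 1) = ∑ i ∈ S, μ i * (pp μ (S.erase i)).coeff k := by
  have h := congrArg (fun p => p.coeff k)
    (Polynomial.derivative_prod_finset (s := S) (f := fun i => (1 + C (μ i) * X : ℝ[X])))
  beta_reduce at h
  have h1 : (derivative (∏ i ∈ S, (1 + C (μ i) * X : ℝ[X]))).coeff k
      = (pp μ S).coeff (k + 1) * (k + 1) := by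
    rw [coeff_derivative]; rfl
  rw [← h1, h, Polynomial.finsetSum_coeff]
  refine Finset.sum_congr rfl ?_
  intro i _
  have : derivative (1 + C (μ i) * X : ℝ[X]) = C (μ i) := by simp
  rw [this, coeff_mul_C, mul_comm]
  rfl

omit [DecidableEq ι] in
theorem pp_eval_one_pos (μ : ι → ℝ) (hμ : ∀ i, 0 ≤ μ i) (S : Finset ι) :
    0 < (pp μ S).eval 1 := by
  unfold pp
  rw [Polynomial.eval_prod]
  refine Finset.prod_pos ?_
  intro i _
  simp only [eval_add, eval_one, eval_mul, eval_C, eval_X]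
  have := hμ i
  linarith

theorem pp_mean (μ : ι → ℝ) (hμ : ∀ i, 0 ≤ μ i) (S : Finset ι) :
    (derivative (pp μ S)).eval 1 = (∑ i ∈ S, μ i / (1 + μ i)) * (pp μ S).eval 1 := by
  unfold pp
  rw [Polynomial.derivative_prod_finset, Polynomial.eval_finsetSum, Finset.sum_mul]
  refine Finset.sum_congr rfl ?_
  intro i hi
  have : derivative (1 + C (μ i) * X : ℝ[X]) = C (μ i) := by simp
  rw [this, ← Finset.mul_prod_erase S (fun i => (1 + C (μ i) * X : ℝ[X])) hi]
  simp only [eval_mul, eval_add, eval_one, eval_C, eval_X]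
  have := hμ i
  field_simp

/-- Darroch-type lemma. -/
theorem darroch (μ : ι → ℝ) (hμ : ∀ i, 0 ≤ μ i) (S : Finset ι) (K : ℕ)
    (hK : ∑ i ∈ S, μ i / (1 + μ i) ≤ K) :
    (pp μ S).coeff (K + 1) ≤ (pp μ S).coeff K := by
  by_contra hcon
  push Not at hcon
  have hS := pp_SLC μ hμ S
  -- some μ i is positive
  have hex : ∃ i ∈ S, 0 < μ i := by
    by_contra hno
    push Not at hno
    have h1 : pp μ S = 1 := by
      unfold pp
      refine Finset.prod_eq_one ?_
      intro i hi
      have : μ i = 0 := le_antisymm (hno i hi) (hμ i)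
      simp [this]
    rw [h1, coeff_one, coeff_one, if_neg (Nat.succ_ne_zero K)] at hcon
    split_ifs at hcon
    · linarith
    · linarith
  obtain ⟨i0, hi0, hpos0⟩ := hex
  cases K with
  | zero =>
    have : 0 < ∑ i ∈ S, μ i / (1 + μ i) := by
      refine Finset.sum_pos' ?_ ⟨i0, hi0, by positivity⟩
      intro i _
      have := hμ i
      positivity
    simp only [Nat.cast_zero] at hK
    linarith
  | succ k =>
    have hd := pp_deriv μ S k
    have hstep : ∀ i ∈ S, (pp μ (S.erase i)).coeff k < (pp μ (S.erase i)).coeff (k + 1) := by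
      intro i hi
      by_contra hle
      push Not at hle
      have h2 := (pp_SLC μ hμ (S.erase i)).desc_step (pp_coeff_zero μ _) hle
      have e1 : (pp μ S).coeff (k + 1 + 1)
          = (pp μ (S.erase i)).coeff (k + 1 + 1) + μ i * (pp μ (S.erase i)).coeff (k + 1) := by
        rw [pp_erase μ hi, coeff_lin_succ]
      have e2 : (pp μ S).coeff (k + 1)
          = (pp μ (S.erase i)).coeff (k + 1) + μ i * (pp μ (S.erase i)).coeff k := by
        rw [pp_erase μ hi, coeff_lin_succ]
      have := mul_le_mul_of_nonneg_left hle (hμ i)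
      have e3 : k + 1 + 1 = k + 2 := rfl
      rw [e3] at *
      linarith
    have hterm : ∀ i ∈ S, μ i * (pp μ (S.erase i)).coeff k
        ≤ μ i / (1 + μ i) * (pp μ S).coeff (k + 1) := by
      intro i hi
      have h1 := hstep i hi
      have e2 : (pp μ S).coeff (k + 1)
          = (pp μ (S.erase i)).coeff (k + 1) + μ i * (pp μ (S.erase i)).coeff k := by
        rw [pp_erase μ hi, coeff_lin_succ]
      have hm := hμ i
      have h3 : (1 + μ i) * (pp μ (S.erase i)).coeff k ≤ (pp μ S).coeff (k + 1) := by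
        rw [e2]; linarith
      have h4 : μ i / (1 + μ i) * ((1 + μ i) * (pp μ (S.erase i)).coeff k)
          = μ i * (pp μ (S.erase i)).coeff k := by field_simp
      rw [← h4]
      exact mul_le_mul_of_nonneg_left h3 (by positivity)
    have hterm0 : μ i0 * (pp μ (S.erase i0)).coeff k
        < μ i0 / (1 + μ i0) * (pp μ S).coeff (k + 1) := by
      have h1 := hstep i0 hi0
      have e2 : (pp μ S).coeff (k + 1)
          = (pp μ (S.erase i0)).coeff (k + 1) + μ i0 * (pp μ (S.erase i0)).coeff k := by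
        rw [pp_erase μ hi0, coeff_lin_succ]
      have h3 : (1 + μ i0) * (pp μ (S.erase i0)).coeff k < (pp μ S).coeff (k + 1) := by
        rw [e2]; linarith
      have h4 : μ i0 / (1 + μ i0) * ((1 + μ i0) * (pp μ (S.erase i0)).coeff k)
          = μ i0 * (pp μ (S.erase i0)).coeff k := by field_simp
      rw [← h4]
      exact mul_lt_mul_of_pos_left h3 (by positivity)
    have hlt := Finset.sum_lt_sum hterm ⟨i0, hi0, hterm0⟩
    rw [← hd, ← Finset.sum_mul] at hlt
    have hnn := hS.1 (k + 1)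
    simp only [] at hnn
    push_cast at hK
    nlinarith

/-- The upper half: `p` decreasing beyond `K`. -/
theorem upper_half (μ : ι → ℝ) (hμ : ∀ i, 0 ≤ μ i) (c : ι → ℝ) (hc : ∀ i, 0 ≤ c i)
    (S : Finset ι) (K : ℕ) (hK1 : 1 ≤ K) (hK : ∑ i ∈ S, μ i / (1 + μ i) ≤ K) (N : ℝ)
    (P : ℝ[X]) (hP : P = C N * pp μ S - X * ∑ j ∈ S, C (c j) * pp μ (S.erase j))
    (k : ℕ) (hk : K ≤ k) (hm : 0 < (pp μ S).coeff k) (hp : 0 ≤ P.coeff k) :
    P.coeff (k + 1) ≤ P.coeff k := by
  obtain ⟨i, rfl⟩ : ∃ i, k = i + 1 := ⟨k - 1, by omega⟩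
  have hdesc := (pp_SLC μ hμ S).desc (pp_coeff_zero μ S) (darroch μ hμ S K hK) (i + 1) hk
  have ec : ∀ m, P.coeff (m + 1) = N * (pp μ S).coeff (m + 1)
      - ∑ j ∈ S, c j * (pp μ (S.erase j)).coeff m := by
    intro m
    rw [hP, coeff_sub, coeff_C_mul, coeff_X_mul, Polynomial.finsetSum_coeff]
    congr 1
    refine Finset.sum_congr rfl ?_
    intro j _
    rw [coeff_C_mul]
  have key : P.coeff (i + 1 + 1) * (pp μ S).coeff (i + 1)
      ≤ P.coeff (i + 1) * (pp μ S).coeff (i + 1 + 1) := by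
    rw [ec, ec]
    have : 0 ≤ ∑ j ∈ S, c j * ((pp μ (S.erase j)).coeff (i + 1) * (pp μ S).coeff (i + 1)
        - (pp μ (S.erase j)).coeff i * (pp μ S).coeff (i + 1 + 1)) := by
      refine Finset.sum_nonneg ?_
      intro j hj
      refine mul_nonneg (hc j) ?_
      have e1 : (pp μ S).coeff (i + 1 + 1)
          = (pp μ (S.erase j)).coeff (i + 1 + 1) + μ j * (pp μ (S.erase j)).coeff (i + 1) := by
        rw [pp_erase μ hj, coeff_lin_succ]
      have e2 : (pp μ S).coeff (i + 1)
          = (pp μ (S.erase j)).coeff (i + 1) + μ j * (pp μ (S.erase j)).coeff i := by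
        rw [pp_erase μ hj, coeff_lin_succ]
      rw [e1, e2]
      have := (pp_SLC μ hμ (S.erase j)).2 i i le_rfl
      simp only [] at this
      have e3 : i + 1 + 1 = i + 2 := rfl
      rw [e3] at *
      nlinarith
    have e4 : ∑ j ∈ S, c j * ((pp μ (S.erase j)).coeff (i + 1) * (pp μ S).coeff (i + 1)
        - (pp μ (S.erase j)).coeff i * (pp μ S).coeff (i + 1 + 1))
        = (∑ j ∈ S, c j * (pp μ (S.erase j)).coeff (i + 1)) * (pp μ S).coeff (i + 1)
          - (∑ j ∈ S, c j * (pp μ (S.erase j)).coeff i) * (pp μ S).coeff (i + 1 + 1) := by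
      rw [Finset.sum_mul, Finset.sum_mul, ← Finset.sum_sub_distrib]
      refine Finset.sum_congr rfl ?_
      intro j _
      ring
    rw [e4] at this
    linarith
  have h2 : P.coeff (i + 1) * (pp μ S).coeff (i + 1 + 1)
      ≤ P.coeff (i + 1) * (pp μ S).coeff (i + 1) := mul_le_mul_of_nonneg_left hdesc hp
  exact le_of_mul_le_mul_right (key.trans h2) hm

end Pool.Agent.MP_5d54aa_co
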