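import Mathlib

set_option autoImplicit false

open Matrix

namespace Pool.Agent.MP_5d54aa_co

theorem spec_exists {ι : Type} [Fintype ι] [DecidableEq ι] (A : Matrix ι ι ℝ) (hA : A.PosSemidef) :
    ∃ (U : Matrix ι ι ℝ) (μ : ι → ℝ), (∀ i, 0 ≤ μ i) ∧ Uᵀ * U = 1 ∧ U * Uᵀ = 1 ∧
      A = U * diagonal μ * Uᵀ := by
  have hH := hA.1
  refine ⟨(hH.eigenvectorUnitary : Matrix ι ι ℝ), hH.eigenvalues, hA.eigenvalues_nonneg, ?_, ?_, ?_⟩
  · have := Unitary.coe_star_mul_self hH.eigenvectorUnitary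
    simpa [star_eq_conjTranspose] using this
  · have := Unitary.coe_mul_star_self hH.eigenvectorUnitary
    simpa [star_eq_conjTranspose] using this
  · have := hH.spectral_theorem
    conv_lhs => rw [this, Unitary.conjStarAlgAut_apply]
    simp [star_eq_conjTranspose]

theorem spec_data {ι : Type} [Fintype ι] [DecidableEq ι] (A : Matrix ι ι ℝ) (hA : A.PosSemidef)
    (δ : ι → ℝ) :
    ∃ (μ c : ι → ℝ), (∀ i, 0 ≤ μ i) ∧ (∀ i, 0 ≤ c i) ∧ ∀ y : ℝ, 0 < y →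
      (1 + y • A).det = ∏ i, (1 + y * μ i) ∧
      ∀ g, (1 + y • A) *ᵥ g = δ → δ ⬝ᵥ g = ∑ i, c i / (1 + y * μ i) := by
  obtain ⟨U, μ, hμ, h1, h2, h3⟩ := spec_exists A hA
  refine ⟨μ, fun i => ((Uᵀ *ᵥ δ) i) ^ 2, hμ, fun i => by positivity, ?_⟩
  intro y hy
  have hM : 1 + y • A = U * diagonal (fun i => 1 + y * μ i) * Uᵀ := by
    have hd : diagonal (fun i => 1 + y * μ i) = 1 + y • diagonal μ := by
      ext i j
      by_cases h : i = j
      · subst h; simp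
      · simp [h]
    rw [hd, mul_add, add_mul, mul_one, h2, h3]
    simp
  refine ⟨?_, ?_⟩
  · rw [hM, det_mul, det_mul, det_diagonal]
    have : U.det * Uᵀ.det = 1 := by rw [← det_mul, h2, det_one]
    calc U.det * (∏ i, (1 + y * μ i)) * Uᵀ.det = (U.det * Uᵀ.det) * ∏ i, (1 + y * μ i) := by ring
      _ = _ := by rw [this, one_mul]
  · intro g hg
    have hg' : diagonal (fun i => 1 + y * μ i) *ᵥ (Uᵀ *ᵥ g) = Uᵀ *ᵥ δ := by
      rw [← hg, hM, mulVec_mulVec, mulVec_mulVec, ← mul_assoc, ← mul_assoc, h1, one_mul]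
    have hgi : ∀ i, (Uᵀ *ᵥ g) i = (Uᵀ *ᵥ δ) i / (1 + y * μ i) := by
      intro i
      have := congrFun hg' i
      rw [mulVec_diagonal] at this
      have hp : 0 < 1 + y * μ i := by have := hμ i; positivity
      rw [← this]; field_simp
    have hdot : δ ⬝ᵥ g = (Uᵀ *ᵥ δ) ⬝ᵥ (Uᵀ *ᵥ g) := by
      rw [dotProduct_mulVec, vecMul_transpose, mulVec_mulVec, h2, one_mulVec]
    rw [hdot]
    simp only [dotProduct]
    refine Finset.sum_congr rfl ?_
    intro i _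
    rw [hgi]; ring

end Pool.Agent.MP_5d54aa_co
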