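import Pool.Agent.Work.MP_5d54aa_co.Mat2
import Pool.Agent.Work.MP_5d54aa_co.Spec
import Pool.Agent.Work.MP_5d54aa_co.Newton

set_option autoImplicit false

open Polynomial Matrix

namespace Pool.Agent.MP_5d54aa_co

theorem RT.L_herm (R : RT) : R.L.IsHermitian := by
  induction R with
  | single => exact Matrix.isHermitian_zero
  | graft T S ihT ihS =>
    change (fromBlocks T.L 0 0 S.L + vecMulVec (RT.w T S) (RT.w T S) :
      Matrix (T.V ⊕ S.V) (T.V ⊕ S.V) ℝ).IsHermitian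
    refine Matrix.IsHermitian.add ?_ ?_
    · exact Matrix.IsHermitian.fromBlocks ihT (by simp) ihS
    · unfold Matrix.IsHermitian
      ext i j
      simp [vecMulVec_apply, mul_comm]

theorem RT.L_psd_aux (R : RT) : ∀ z : R.V → ℝ, 0 ≤ z ⬝ᵥ (R.L *ᵥ z) := by
  induction R with
  | single =>
    intro z
    have hL : RT.single.L = 0 := rfl
    rw [hL, zero_mulVec, dotProduct_zero]
  | graft T S ihT ihS =>
    have key : ∀ v : T.V ⊕ S.V → ℝ,
        0 ≤ v ⬝ᵥ ((fromBlocks T.L 0 0 S.L + vecMulVec (RT.w T S) (RT.w T S) :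
      Matrix (T.V ⊕ S.V) (T.V ⊕ S.V) ℝ) *ᵥ v) := by
      intro v
      rw [add_mulVec, vecMulVec_mulVec', fromBlocks_mulVec, dotProduct_add, dotProduct_smul]
      have h1 : v ⬝ᵥ (Sum.elim (T.L *ᵥ (v ∘ Sum.inl) + (0 : Matrix T.V S.V ℝ) *ᵥ (v ∘ Sum.inr))
          ((0 : Matrix S.V T.V ℝ) *ᵥ (v ∘ Sum.inl) + S.L *ᵥ (v ∘ Sum.inr)))
          = (v ∘ Sum.inl) ⬝ᵥ (T.L *ᵥ (v ∘ Sum.inl)) + (v ∘ Sum.inr) ⬝ᵥ (S.L *ᵥ (v ∘ Sum.inr)) := by
        have : v = Sum.elim (v ∘ Sum.inl) (v ∘ Sum.inr) := (Sum.elim_comp_inl_inr v).symm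
        conv_lhs => enter [1]; rw [this]
        rw [sumElim_dotProduct_sumElim, zero_mulVec, zero_mulVec, add_zero, zero_add]
      rw [h1, dotProduct_comm v (RT.w T S), smul_eq_mul]
      have := ihT (v ∘ Sum.inl)
      have := ihS (v ∘ Sum.inr)
      have := mul_self_nonneg (RT.w T S ⬝ᵥ v)
      linarith
    exact key

theorem RT.L_psd (R : RT) : R.L.PosSemidef :=
  Matrix.PosSemidef.of_dotProduct_mulVec_nonneg R.L_herm (fun z => by
    have := R.L_psd_aux z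
    simpa using this)

/-- Real polynomial version of an integer polynomial. -/
noncomputable def rp (p : ℤ[X]) : ℝ[X] := p.map (Int.castRingHom ℝ)

theorem rp_eval (p : ℤ[X]) (y : ℝ) : (rp p).eval y = ev y p := by
  unfold rp ev
  rw [Polynomial.eval_map, Polynomial.aeval_def]
  rfl

theorem rp_coeff (p : ℤ[X]) (k : ℕ) : (rp p).coeff k = (p.coeff k : ℝ) := by
  unfold rp; rw [coeff_map]; rfl

theorem poly_ext_pos (p q : ℝ[X]) (h : ∀ y : ℝ, 0 < y → p.eval y = q.eval y) : p = q := by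
  apply Polynomial.eq_of_infinite_eval_eq
  refine Set.Infinite.mono ?_ (Set.Ioi_infinite (0 : ℝ))
  intro y hy
  exact h y hy

theorem RT.spectral (R : RT) : ∃ (μ c : R.V → ℝ), (∀ i, 0 ≤ μ i) ∧ (∀ i, 0 ≤ c i) ∧
    rp R.pol.a = pp μ Finset.univ ∧
    rp R.P = C ((R.n : ℝ) - 1) * pp μ Finset.univ
      - X * ∑ j ∈ Finset.univ, C (c j) * pp μ (Finset.univ.erase j) := by
  obtain ⟨μ, c, hμ, hc, hy⟩ := spec_data R.L R.L_psd R.del
  have heval : ∀ y : ℝ, ∀ s : Finset R.V, (pp μ s).eval y = ∏ i ∈ s, (1 + y * μ i) := by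
    intro y s
    unfold pp
    rw [Polynomial.eval_prod]
    refine Finset.prod_congr rfl ?_
    intro i _
    rw [eval_add, eval_one, eval_mul, eval_C, eval_X, mul_comm]
  refine ⟨μ, c, hμ, hc, ?_, ?_⟩
  · apply poly_ext_pos
    intro y hy0
    obtain ⟨h1, _⟩ := hy y hy0
    obtain ⟨_, hdet⟩ := R.dat y hy0
    rw [rp_eval, ← hdet, h1, heval]
  · apply poly_ext_pos
    intro y hy0
    obtain ⟨h1, h2⟩ := hy y hy0
    obtain ⟨⟨f, g, _, hg, _, _, _, hk⟩, hdet⟩ := R.dat y hy0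
    have h3 := h2 g hg
    rw [hk] at h3
    have ha := ev_a_pos R hy0.le
    have h4 : ev y R.P = (R.n - 1) * ev y R.pol.a - y * (ev y R.pol.a * ∑ i, c i / (1 + y * μ i)) := by
      rw [← h3]; field_simp; ring
    have h5 : ev y R.pol.a = ∏ i, (1 + y * μ i) := by rw [← hdet, h1]
    rw [rp_eval, h4, eval_sub, eval_mul, eval_mul, eval_C, eval_X, heval,
      Polynomial.eval_finsetSum, ← h5, Finset.mul_sum]
    congr 2
    refine Finset.sum_congr rfl ?_
    intro j hj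
    rw [eval_mul, eval_C, heval]
    have hp : 0 < 1 + y * μ j := by have := hμ j; positivity
    have : ev y R.pol.a = (1 + y * μ j) * ∏ i ∈ Finset.univ.erase j, (1 + y * μ i) := by
      rw [h5, Finset.mul_prod_erase Finset.univ (fun i => 1 + y * μ i) hj]
    rw [this]; field_simp

theorem RT.DL_mat (R : RT) : R.D * R.L = vecMulVec (fun _ => 1) R.del - (2 : ℝ) • 1 := by
  apply Matrix.ext_of_mulVec_single
  intro j
  rw [← mulVec_mulVec]
  funext i
  rw [RT.D_L, sub_mulVec, vecMulVec_mulVec', Pi.sub_apply, Pi.smul_apply, smul_mulVec,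
    one_mulVec, Pi.smul_apply]
  simp

theorem RT.D_det_ne (R : RT) (hn : 2 ≤ R.n) : R.D.det ≠ 0 := by
  have hn' : ((R.n : ℝ) - 1) ≠ 0 := by
    have : (2 : ℝ) ≤ R.n := by exact_mod_cast hn
    intro h; linarith
  have hDd : R.D *ᵥ R.del = ((R.n : ℝ) - 1) • (fun _ => (1 : ℝ)) := by
    funext x
    rw [RT.D_del]; simp
  have h : R.D * (R.L - ((R.n : ℝ) - 1)⁻¹ • vecMulVec R.del R.del) = (-2 : ℝ) • 1 := by
    rw [mul_sub, RT.DL_mat, mul_smul_comm, Matrix.mul_vecMulVec, hDd, smul_vecMulVec, smul_smul,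
      inv_mul_cancel₀ hn', one_smul]
    simp
  intro h0
  have h2 := congrArg Matrix.det h
  rw [det_mul, h0, zero_mul, det_smul, det_one, mul_one] at h2
  have : (-2 : ℝ) ^ Fintype.card R.V ≠ 0 := by positivity
  exact this h2.symm

theorem RT.det_D_sub (R : RT) (hn : 2 ≤ R.n) (y : ℝ) (hy : 0 < y) :
    ((R.n : ℝ) - 1) * (R.D - (2 * y) • 1).det = R.D.det * ev y R.P := by
  have hn' : ((R.n : ℝ) - 1) ≠ 0 := by
    have : (2 : ℝ) ≤ R.n := by exact_mod_cast hn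
    intro h; linarith
  obtain ⟨⟨f, g, _, hg, _, _, _, hk⟩, hdet⟩ := R.dat y hy
  have hDd : R.D *ᵥ R.del = ((R.n : ℝ) - 1) • (fun _ => (1 : ℝ)) := by
    funext x
    rw [RT.D_del]; simp
  have ha := ev_a_pos R hy.le
  have e1 : R.D - (2 * y) • 1 = R.D * (1 + y • R.L) + vecMulVec ((-y) • (fun _ => (1 : ℝ))) R.del := by
    rw [mul_add, mul_one, mul_smul_comm, RT.DL_mat, smul_vecMulVec, smul_sub, smul_smul,
      neg_smul, mul_comm 2 y]
    abel
  have e2 : (R.D * (1 + y • R.L)) *ᵥ ((-y / ((R.n : ℝ) - 1)) • g) = (-y) • (fun _ => (1 : ℝ)) := by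
    rw [mulVec_smul, ← mulVec_mulVec, hg, hDd, smul_smul]
    congr 1
    field_simp
  rw [e1, det_rank_one _ _ _ _ e2, det_mul, hdet, dotProduct_smul, hk, smul_eq_mul]
  field_simp
  ring

end Pool.Agent.MP_5d54aa_co
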