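import Pool.Agent.Work.MP_5d54aa_co.Cone

set_option autoImplicit false

open Polynomial

namespace Pool.Agent.MP_5d54aa_co

/-- Rooted trees: `graft T S` attaches the root of `S` as a new child of the root of `T`. -/
inductive RT
  | single : RT
  | graft (T S : RT) : RT

/-- The five polynomials attached to a rooted tree. -/
structure Pol where
  a : ℤ[X]
  b : ℤ[X]
  L : ℤ[X]
  Q : ℤ[X]
  R : ℤ[X]

noncomputable def Pol.comb (t s : Pol) : Pol where
  b := t.b * (s.a + X * s.b)
  a := t.a * (s.a + X * s.b) + X * t.b * s.a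
  L := t.L * (s.a + X * s.b) + t.b * (s.a + X * s.L)
  Q := t.Q * (s.a + X * s.b) + t.b * (s.R + s.a + X * s.Q + 2 * X * s.L)
  R := t.R * (s.a + X * s.b) + t.b * (X * s.R + (s.R + s.a + X * s.Q + 2 * X * s.L))
    + (t.a - t.b) * (s.R + s.a + X * s.Q + 2 * X * s.L) + X * s.a * t.Q
    - 2 * X * t.L * (s.a + X * s.L)

noncomputable def RT.pol : RT → Pol
  | RT.single => ⟨1, 1, 0, 0, 0⟩
  | RT.graft T S => T.pol.comb S.pol

def RT.n : RT → ℕ
  | RT.single => 1
  | RT.graft T S => T.n + S.n

theorem RT.n_pos : ∀ R : RT, 1 ≤ R.n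
  | RT.single => le_rfl
  | RT.graft T S => by
    have := RT.n_pos T
    simp only [RT.n]; omega

/-- cross term -/
noncomputable def cross (t s : Pol) : ℤ[X] :=
  (t.a - t.b) * s.Q + (s.a - s.b) * t.Q - 2 * X * t.L * s.L

theorem cross_comm (t s : Pol) : cross t s = cross s t := by
  unfold cross; ring

/-- The cone facts for a rooted tree. -/
structure Facts (n : ℤ) (p : Pol) : Prop where
  hb : Cone (n - 1) p.b
  hab : Cone n (p.a - p.b)
  hL : Cone (n - 2) p.L
  hQ : Cone (n - 2) p.Q
  hRQ : Cone (n - 1) (p.R - p.Q)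

theorem Facts.ha {n : ℤ} {p : Pol} (h : Facts n p) : Cone (n - 1) p.a := by
  have := h.hab.add' h.hb (e := n - 1) (by linarith) le_rfl
  rwa [sub_add_cancel] at this

theorem Facts.hD {n : ℤ} {p : Pol} (h : Facts n p) : Cone n (p.a + X * p.b) := by
  have := h.hab.add' h.hb.oneX_mul (e := n) le_rfl (by linarith)
  convert this using 1; ring

theorem Facts.hRXQ {n : ℤ} {p : Pol} (h : Facts n p) : Cone (n - 1) (p.R + X * p.Q) := by
  have := h.hRQ.add' h.hQ.oneX_mul (e := n - 1) le_rfl (by linarith)
  convert this using 1; ring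

theorem Facts.hLp {n : ℤ} {p : Pol} (h : Facts n p) : Cone (n - 1) (p.a + X * p.L) :=
  h.ha.add' h.hL.X_mul le_rfl (by linarith)

theorem Facts.hQp {n : ℤ} {p : Pol} (h : Facts n p) :
    Cone (n - 1) (p.R + p.a + X * p.Q + 2 * X * p.L) := by
  have h1 := h.hRXQ.add' h.ha (e := n - 1) le_rfl le_rfl
  have h2 := h1.add' (h.hL.X_mul.nsmul 2) (e := n - 1) le_rfl (by linarith)
  convert h2 using 1; push_cast; ring

theorem facts_single : Facts 1 RT.single.pol := by
  constructor
  · simpa [RT.pol] using Cone.one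
  · simpa [RT.pol] using Cone.zero
  · simpa [RT.pol] using Cone.zero
  · simpa [RT.pol] using Cone.zero
  · simpa [RT.pol] using Cone.zero

/-- `S⁺`: a new root with single child `S`. -/
noncomputable def plus (s : Pol) : Pol := (RT.single.pol).comb s

theorem cross_comb_left (t s u : Pol) :
    cross (t.comb s) u = cross t u * (s.a + X * s.b) + t.b * cross (plus s) u := by
  unfold cross plus Pol.comb RT.pol; dsimp only; ring

theorem cross_plus_plus (s u : Pol) :
    cross (plus s) (plus u) =
      (X * (s.b * ((1 + X) * u.Q)) + X * ((s.a - s.b) * u.Q) + X * (s.a * (u.R - u.Q)))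
      + (X * (u.b * ((1 + X) * s.Q)) + X * ((u.a - u.b) * s.Q) + X * (u.a * (s.R - s.Q)))
      + X * (X * cross s u) := by
  unfold cross plus Pol.comb RT.pol; dsimp only; ring

theorem cone_plus_plus {n m : ℤ} {s u : Pol} (hs : Facts n s) (hu : Facts m u)
    (h : Cone ((n - 1) + (m - 1)) (cross s u)) : Cone (n + m) (cross (plus s) (plus u)) := by
  rw [cross_plus_plus]
  have key : ∀ {n m : ℤ} {s u : Pol}, Facts n s → Facts m u →
      Cone (n + m) (X * (s.b * ((1 + X) * u.Q)) + X * ((s.a - s.b) * u.Q)
        + X * (s.a * (u.R - u.Q))) := by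
    intro n m s u hs hu
    have h1 := (hs.hb.mul hu.hQ.oneX_mul).X_mul
    have h2 := (hs.hab.mul hu.hQ).X_mul
    have h3 := (hs.ha.mul hu.hRQ).X_mul
    exact (h1.add' h2 (e := n + m) (by linarith) (by linarith)).add' h3 le_rfl (by linarith)
  have k1 := key hs hu
  have k2 := key hu hs
  exact (k1.add' k2 (e := n + m) le_rfl (by linarith)).add' h.X_mul.X_mul le_rfl (by linarith)

theorem facts_comb {n m : ℤ} {t s : Pol} (ht : Facts n t) (hs : Facts m s)
    (h : Cone ((n - 1) + m) (cross t (plus s))) : Facts (n + m) (t.comb s) := by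
  constructor
  · exact (ht.hb.mul hs.hD).weaken (by linarith)
  · have h1 := ht.hab.mul hs.hD
    have h2 := (ht.hb.mul hs.ha).X_mul
    have := h1.add' h2 (e := n + m) le_rfl (by linarith)
    convert this using 1; unfold Pol.comb; dsimp only; ring
  · exact (ht.hL.mul hs.hD).add' (ht.hb.mul hs.hLp) (by linarith) (by linarith)
  · exact (ht.hQ.mul hs.hD).add' (ht.hb.mul hs.hQp) (by linarith) (by linarith)
  · have h1 := ht.hRQ.mul hs.hD
    have hR : Cone (m - 2) s.R := by
      have := hs.hRQ.add' hs.hQ (e := m - 2) (by linarith) le_rfl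
      rwa [sub_add_cancel] at this
    have h2 := (ht.hb.mul hR).X_mul
    have := (h1.add' h2 (e := n + m - 1) (by linarith) (by linarith)).add' h (e := n + m - 1)
      le_rfl (by linarith)
    convert this using 1; unfold cross plus Pol.comb RT.pol; dsimp only; ring

theorem cross_single (u : Pol) : cross RT.single.pol u = 0 := by
  unfold cross RT.pol; dsimp only; ring

theorem cone_all (N : ℕ) :
    (∀ R : RT, R.n + 1 ≤ N → Facts R.n R.pol) ∧
    (∀ T T' : RT, T.n + T'.n ≤ N → Cone (((T.n : ℤ) - 1) + ((T'.n : ℤ) - 1)) (cross T.pol T'.pol)) := by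
  induction N with
  | zero =>
    refine ⟨fun R h => by omega, fun T T' h => ?_⟩
    have := T.n_pos; omega
  | succ N ih =>
    obtain ⟨ihF, ihX⟩ := ih
    -- plus-plus
    have hpp : ∀ S S' : RT, S.n + S'.n + 2 ≤ N + 1 →
        Cone ((S.n : ℤ) + S'.n) (cross (plus S.pol) (plus S'.pol)) := by
      intro S S' h
      have h1 := S.n_pos
      have h2 := S'.n_pos
      exact cone_plus_plus (ihF S (by omega)) (ihF S' (by omega)) (ihX S S' (by omega))
    have hp : ∀ (S T' : RT), S.n + 1 + T'.n ≤ N + 1 →
        Cone ((S.n : ℤ) + ((T'.n : ℤ) - 1)) (cross (plus S.pol) T'.pol) := by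
      intro S T'
      induction T' with
      | single =>
        intro _
        rw [cross_comm, cross_single]; exact Cone.zero
      | graft T1 S1 ihT _ =>
        intro h
        simp only [RT.n] at h
        have hT1 := T1.n_pos
        have hS1 := S1.n_pos
        have hS := S.n_pos
        rw [cross_comm]
        simp only [RT.pol]
        rw [cross_comb_left]
        have e1 := ihT (by omega)
        have e2 := hpp S1 S (by omega)
        rw [cross_comm] at e1
        have f1 := ihF T1 (by omega)
        have f2 := ihF S1 (by omega)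
        have g1 := e1.mul f2.hD
        have g2 := f1.hb.mul e2
        refine g1.add' g2 ?_ ?_
        · simp only [RT.n]; push_cast; linarith
        · simp only [RT.n]; push_cast; linarith
    have hX : ∀ (T T' : RT), T.n + T'.n ≤ N + 1 →
        Cone (((T.n : ℤ) - 1) + ((T'.n : ℤ) - 1)) (cross T.pol T'.pol) := by
      intro T
      induction T with
      | single =>
        intro T' _
        rw [cross_single]; exact Cone.zero
      | graft T1 S1 ihT _ =>
        intro T' h
        simp only [RT.n] at h
        have hT1 := T1.n_pos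
        have hS1 := S1.n_pos
        have hT' := T'.n_pos
        simp only [RT.pol]
        rw [cross_comb_left]
        have e1 := ihT T' (by omega)
        have e2 := hp S1 T' (by omega)
        have f1 := ihF T1 (by omega)
        have f2 := ihF S1 (by omega)
        have g1 := e1.mul f2.hD
        have g2 := f1.hb.mul e2
        refine g1.add' g2 ?_ ?_
        · simp only [RT.n]; push_cast; linarith
        · simp only [RT.n]; push_cast; linarith
    refine ⟨?_, hX⟩
    intro R
    cases R with
    | single => intro _; exact_mod_cast facts_single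
    | graft T S =>
      intro h
      simp only [RT.n] at h
      have hT := T.n_pos
      have hS := S.n_pos
      have fT := ihF T (by omega)
      have fS := ihF S (by omega)
      have hx := hX T (RT.graft RT.single S) (by simp only [RT.n]; omega)
      simp only [RT.n, RT.pol]
      push_cast
      refine facts_comb fT fS ?_
      have : (((T.n : ℤ) - 1) + (((RT.graft RT.single S).n : ℤ) - 1)) = (T.n - 1 : ℤ) + S.n := by
        simp only [RT.n]; push_cast; ring
      rw [this] at hx
      exact hx

theorem facts (R : RT) : Facts R.n R.pol := (cone_all (R.n + 1)).1 R le_rfl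

/-- `Y = (a - b) + X Q - 2 X Λ`. -/
noncomputable def Yp (p : Pol) : ℤ[X] := (p.a - p.b) + X * p.Q - 2 * X * p.L

theorem Y_cone : ∀ R : RT, Cone R.n (Yp R.pol)
  | RT.single => by
    have : Yp RT.single.pol = 0 := by simp [Yp, RT.pol]
    rw [this]; exact Cone.zero
  | RT.graft T S => by
    have ih := Y_cone T
    have fT := facts T
    have fS := facts S
    have : Yp (RT.graft T S).pol
        = Yp T.pol * (S.pol.a + X * S.pol.b) + X * (T.pol.b * (S.pol.R + X * S.pol.Q)) := by
      simp only [RT.pol]; unfold Yp Pol.comb; dsimp only; ring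
    rw [this]
    refine (ih.mul fS.hD).add' (fT.hb.mul fS.hRXQ).X_mul ?_ ?_
    · simp only [RT.n]; push_cast; linarith
    · simp only [RT.n]; push_cast; linarith

/-- `P = 𝓡 + 4 X Λ - 4 X b`. -/
noncomputable def RT.P (R : RT) : ℤ[X] := R.pol.R + 4 * X * R.pol.L - 4 * X * R.pol.b

theorem P_leaf (R : RT) : (RT.graft R RT.single).P =
    (1 + X) * R.P + (Yp R.pol + (1 + 4 * X) * R.pol.b) := by
  unfold RT.P; simp only [RT.pol]; unfold Yp Pol.comb; dsimp only; ring

theorem b_ge (R : RT) : Cone 0 (R.pol.b - (1 + X) ^ (R.n - 1)) := by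
  induction R with
  | single => simpa [RT.pol, RT.n] using Cone.zero
  | graft T S ihT ihS =>
    have fT := facts T
    have fS := facts S
    have hT := T.n_pos
    have hS := S.n_pos
    have e : (RT.graft T S).pol.b - (1 + X) ^ ((RT.graft T S).n - 1)
        = (T.pol.b - (1 + X) ^ (T.n - 1)) * (S.pol.a + X * S.pol.b)
          + (X ^ 0 * (1 + X) ^ (T.n - 1)) * ((S.pol.a - S.pol.b)
            + (1 + X) * (S.pol.b - (1 + X) ^ (S.n - 1))) := by
      have : (RT.graft T S).n - 1 = (T.n - 1) + (S.n - 1) + 1 := by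
        simp only [RT.n]; omega
      rw [this, pow_succ, pow_add]
      simp only [RT.pol, Pol.comb]; ring
    rw [e]
    have h1 := ihT.mul (fS.hD.weaken (d := 0) (by positivity))
    have h2 : Cone 0 (X ^ 0 * (1 + X) ^ (T.n - 1)) := Cone.mono _ _ (by positivity)
    have h3 : Cone 0 ((S.pol.a - S.pol.b) + (1 + X) * (S.pol.b - (1 + X) ^ (S.n - 1))) :=
      (fS.hab.add' ihS.oneX_mul (by positivity) (by norm_num))
    exact h1.add' (h2.mul h3) (by norm_num) (by norm_num)

theorem b_coeff_ge (R : RT) (k : ℕ) : ((R.n - 1).choose k : ℤ) ≤ R.pol.b.coeff k := by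
  have := (b_ge R).nonneg k
  rw [coeff_sub, add_comm (1 : ℤ[X]) X, Polynomial.coeff_X_add_one_pow] at this
  linarith

theorem ab_coeff_zero (R : RT) : R.pol.a.coeff 0 = 1 ∧ R.pol.b.coeff 0 = 1 := by
  induction R with
  | single => simp [RT.pol]
  | graft T S ihT ihS =>
    obtain ⟨h1, h2⟩ := ihT
    obtain ⟨h3, h4⟩ := ihS
    simp [RT.pol, Pol.comb, Polynomial.mul_coeff_zero, h1, h2, h3]

theorem Y_coeff_zero (R : RT) : (Yp R.pol).coeff 0 = 0 := by
  obtain ⟨h1, h2⟩ := ab_coeff_zero R
  simp [Yp, Polynomial.mul_coeff_zero, h1, h2]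

end Pool.Agent.MP_5d54aa_co
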